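import Mathlib

/-!
# Tree spanners, chordal graphs and levelled graphs: definitions
-/

set_option autoImplicit false

namespace Pool.Agent.TSpan33

open SimpleGraph

/-- `T` is a tree `t`-spanner of `G`: a spanning tree of `G` with
`d_T(x, y) ≤ t * d_G(x, y)` for all vertices `x`, `y`. -/
def IsTreeSpanner {V : Type*} (t : ℕ) (G T : SimpleGraph V) : Prop :=
  T ≤ G ∧ T.IsTree ∧ ∀ x y : V, T.dist x y ≤ t * G.dist x y

/-- `G` is chordal: it has no induced cycle of length at least four. -/
def IsChordal {V : Type*} (G : SimpleGraph V) : Prop :=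
  ∀ n : ℕ, 4 ≤ n → IsEmpty (cycleGraph n ↪g G)

/-- A finite graph together with a level for every ordered pair of vertices. -/
structure LG where
  /-- the vertices -/
  V : Type
  /-- the vertex set is finite -/
  fin : Fintype V
  /-- vertices can be compared -/
  dec : DecidableEq V
  /-- the graph -/
  G : SimpleGraph V
  /-- adjacency can be decided -/
  rel : DecidableRel G.Adj
  /-- the levels -/
  lev : V → V → ℕ

attribute [instance] LG.fin LG.dec LG.rel

/-- The ordered pairs of adjacent vertices of positive level. -/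
abbrev LG.Y (A : LG) : Type :=
  {p : A.V × A.V // A.G.Adj p.1 p.2 ∧ 0 < A.lev p.1 p.2}

/-- Adjacency in `A.step`: the old edges, and every new vertex `p` is adjacent exactly to the two
ends of the edge `p`. -/
def LG.stepAdj (A : LG) : A.V ⊕ A.Y → A.V ⊕ A.Y → Prop
  | .inl u, .inl v => A.G.Adj u v
  | .inl u, .inr p => u = p.1.1 ∨ u = p.1.2
  | .inr p, .inl v => v = p.1.1 ∨ v = p.1.2
  | .inr _, .inr _ => False

/-- The levels of `A.step`: a new vertex `y` on the edge `(u, v)` of level `l` gives the pairs
`(u, y)` and `(y, v)` of level `l - 1`; all other levels are `0`. -/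
def LG.stepLev (A : LG) : A.V ⊕ A.Y → A.V ⊕ A.Y → ℕ
  | .inl u, .inr p => if u = p.1.1 then A.lev p.1.1 p.1.2 - 1 else 0
  | .inr p, .inl v => if v = p.1.2 then A.lev p.1.1 p.1.2 - 1 else 0
  | _, _ => 0

/-- Adjacency in `A.step` can be decided. -/
instance LG.stepDec (A : LG) : DecidableRel A.stepAdj
  | .inl u, .inl v => inferInstanceAs (Decidable (A.G.Adj u v))
  | .inl u, .inr p => inferInstanceAs (Decidable (u = p.1.1 ∨ u = p.1.2))
  | .inr p, .inl v => inferInstanceAs (Decidable (v = p.1.1 ∨ v = p.1.2))
  | .inr _, .inr _ => inferInstanceAs (Decidable False)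

/-- Glue a triangle onto every edge of positive level. -/
def LG.step (A : LG) : LG where
  V := A.V ⊕ A.Y
  fin := inferInstance
  dec := inferInstance
  G := { Adj := A.stepAdj
         symm := ⟨by
           rintro (u | p) (v | q) h
           · exact A.G.adj_symm h
           · exact h
           · exact h
           · exact h⟩
         loopless := ⟨by
           rintro (u | p) h
           · exact A.G.loopless.irrefl u h
           · exact h⟩ }
  rel := A.stepDec
  lev := A.stepLev

/-- Repeat `LG.step`. -/
def LG.steps : ℕ → LG → LG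
  | 0, A => A
  | n + 1, A => LG.steps n A.step

/-- The levelled graph given by a table `bd` of bounds: `bd u v = 0` means that `(u, v)` is not
listed, and `bd u v = b > 0` lists the edge `uv` with the bound `b`, that is with the level
`t - b`. -/
def LG.ofBounds (t : ℕ) (V : Type) [Fintype V] [DecidableEq V] (bd : V → V → ℕ) : LG where
  V := V
  fin := inferInstance
  dec := inferInstance
  G := { Adj := fun u v => u ≠ v ∧ (bd u v ≠ 0 ∨ bd v u ≠ 0)
         symm := ⟨fun _ _ h => ⟨h.1.symm, h.2.symm⟩⟩
         loopless := ⟨fun _ h => h.1 rfl⟩ }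
  rel := fun u v => inferInstanceAs (Decidable (u ≠ v ∧ (bd u v ≠ 0 ∨ bd v u ≠ 0)))
  lev := fun u v => if bd u v = 0 then 0 else t - bd u v

end Pool.Agent.TSpan33
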