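import Pool.Agent.TSpan33.Cores

/-!
# The reduction from 3-SAT

A formula with `n` variables and `m` clauses of three literals is a function
`φ : Fin m → Fin 3 → Fin n × Bool`; the literal `(v, c)` is true if the variable `v` has the
value `c`.  It is satisfiable iff `∃ τ, ∀ j, ∃ k, τ (φ j k).1 = (φ j k).2`.
-/

set_option autoImplicit false

namespace Pool.Agent.TSpan33

/-- The constraints for even `t`: one for every clause, two for every variable. -/
abbrev JA (n m : ℕ) : Type := Fin m ⊕ (Fin n × Bool)

/-- The avoided values: clause `j` must not be all false; the two literals of a variable must not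
both be `c`, for `c` true and for `c` false. -/
def colA {n m : ℕ} : JA n m → Bool
  | .inl _ => false
  | .inr p => p.2

/-- The scopes: the literals of the clause; the two literals of the variable. -/
def scA {n m : ℕ} (φ : Fin m → Fin 3 → Fin n × Bool) : JA n m → Finset (Fin n × Bool)
  | .inl j => {φ j 0, φ j 1, φ j 2}
  | .inr p => {(p.1, true), (p.1, false)}

/-- The constraints for odd `t`: moreover two for every literal. -/
abbrev JB (n m : ℕ) : Type := JA n m ⊕ ((Fin n × Bool) × Bool)

/-- The avoided values, where `0` is true and `1` is false; the literals must not have the values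
`2` and `3`. -/
def colB {n m : ℕ} : JB n m → Fin 4
  | .inl j => if colA j then 0 else 1
  | .inr p => if p.2 then 2 else 3

/-- The scopes for odd `t`. -/
def scB {n m : ℕ} (φ : Fin m → Fin 3 → Fin n × Bool) : JB n m → Finset (Fin n × Bool)
  | .inl j => scA φ j
  | .inr p => {p.1}

/-- The graph of the reduction: the core for the parity of `t`, with the gadgets that enforce its
bounds. -/
def red (t : ℕ) {n m : ℕ} (φ : Fin m → Fin 3 → Fin n × Bool) : LG :=
  LG.steps t (if t % 2 = 0 then LG.ofBounds t (VA (Fin n × Bool) (JA n m)) (bdA colA (scA φ))
    else LG.ofBounds t (VB (Fin n × Bool) (JB n m)) (bdB colB (scB φ)))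

end Pool.Agent.TSpan33
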