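import Pool.Agent.TSpan33.SoundB

/-!
# The cores are chordal and narrow
-/

set_option autoImplicit false
set_option linter.unusedSectionVars false

namespace Pool.Agent.TSpan33

open SimpleGraph

variable {ι J : Type} [Fintype ι] [Fintype J] [DecidableEq ι] [DecidableEq J]

/-- Rank function for the first core. -/
def rkA : VA ι J → ℕ
  | .g _ => 0
  | .b _ => 1
  | .a _ => 2
  | .w _ => 3
  | .x _ => 4

theorem coreA_rk (t : ℕ) (col : J → Bool) (sc : J → Finset ι) : HasRk (coreA t col sc).G := by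
  refine ⟨rkA, ?_⟩
  intro v u u' h1 h2 h3 h4 h5
  have h1' : AdjOf (bdA col sc) v u := h1
  have h2' : AdjOf (bdA col sc) v u' := h2
  show AdjOf (bdA col sc) u u'
  have htri : ∀ k l : Fin 3, k ≠ l → k < l ∨ l < k := by decide
  rcases v with k | i | j | j | j <;> rcases u with k1 | i1 | j1 | j1 | j1 <;>
    simp only [rkA] at h3 <;> try omega
  all_goals
    rcases u' with k2 | i2 | j2 | j2 | j2 <;> simp only [rkA] at h4 <;> try omega
  all_goals
    simp only [AdjOf, bdA] at h1' h2' ⊢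
    grind

/-- Rank function for the second core. -/
def rkB : VB ι J → ℕ
  | .g _ _ => 0
  | .b _ _ => 1
  | .a _ _ => 2
  | .w _ _ => 3
  | .x _ => 4

theorem coreB_rk (t : ℕ) (col : J → Fin 4) (sc : J → Finset ι) : HasRk (coreB t col sc).G := by
  refine ⟨rkB, ?_⟩
  intro v u u' h1 h2 h3 h4 h5
  have h1' : AdjOf (bdB col sc) v u := h1
  have h2' : AdjOf (bdB col sc) v u' := h2
  show AdjOf (bdB col sc) u u'
  rcases v with k | ⟨c, i⟩ | ⟨c, j⟩ | ⟨c, j⟩ | ⟨c, j⟩ <;>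
    rcases u with k1 | ⟨c1, i1⟩ | ⟨c1, j1⟩ | ⟨c1, j1⟩ | ⟨c1, j1⟩ <;>
    simp only [rkB] at h3 <;> try omega
  all_goals
    rcases u' with k2 | ⟨c2, i2⟩ | ⟨c2, j2⟩ | ⟨c2, j2⟩ | ⟨c2, j2⟩ <;>
    simp only [rkB] at h4 <;> try omega
  all_goals
    simp only [AdjOf, bdB] at h1' h2' ⊢
    grind

theorem wide_ofBounds {V : Type} [Fintype V] [DecidableEq V] {bd : V → V → ℕ} {t : ℕ}
    (hbt : ∀ u v, bd u v ≤ t) {κ : Type} [Fintype κ] (x : κ → V) (k : ℕ)
    (h1 : ∀ u, ∃ v, AdjOf bd u v)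
    (h2 : ∀ u v, u ≠ v → bd u v ≠ 0 → ∃ P : Finset κ, Fintype.card κ < 2 * P.card ∧
      ∀ i ∈ P, ∃ m n, Wn (LG.ofBounds t V bd).G m u (x i) ∧
        Wn (LG.ofBounds t V bd).G n v (x i) ∧ m + n + t ≤ 2 * k + bd u v) :
    (LG.ofBounds t V bd).Wide x k := by
  refine ⟨h1, ?_⟩
  intro u v huv
  have huv' : u ≠ v ∧ (bd u v ≠ 0 ∨ bd v u ≠ 0) := huv
  have hlev : (LG.ofBounds t V bd).lev u v = if bd u v = 0 then 0 else t - bd u v := rfl
  by_cases hb : bd u v = 0
  · have hb' : bd v u ≠ 0 := huv'.2.resolve_left (fun h => h hb)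
    obtain ⟨P, hP, h3⟩ := h2 v u huv'.1.symm hb'
    refine ⟨P, hP, fun i hi => ?_⟩
    obtain ⟨m, n, h4, h5, h6⟩ := h3 i hi
    refine ⟨n, m, h5, h4, ?_⟩
    rw [hlev, if_pos hb]
    have := hbt v u
    omega
  · obtain ⟨P, hP, h3⟩ := h2 u v huv'.1 hb
    refine ⟨P, hP, fun i hi => ?_⟩
    obtain ⟨m, n, h4, h5, h6⟩ := h3 i hi
    refine ⟨m, n, h4, h5, ?_⟩
    rw [hlev, if_neg hb]
    have := hbt u v
    omega

theorem coreA_wide {t k : ℕ} (hk : 2 ≤ k) (ht : t = 2 * k) {col : J → Bool} {sc : J → Finset ι}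
    (hsc : ∀ j, (sc j).Nonempty) : (coreA t col sc).Wide (fun k : Fin 3 => VA.x k) k := by
  classical
  set G := (LG.ofBounds t (VA ι J) (bdA col sc)).G with hG
  have hadj : ∀ {u v}, AdjOf (bdA col sc) u v → Wn G 1 u v := fun h => Wn.adj h
  have htri : ∀ k l : Fin 3, k ≠ l → k < l ∨ l < k := by decide
  have hxx : ∀ k l, Wn G 1 (.x k) (.x l) := by
    intro k l
    by_cases hkl : k = l
    · rw [hkl]; exact Wn.refl _ _
    · apply hadj
      simp only [AdjOf, bdA]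
      have := htri k l hkl
      grind
  have hwx : ∀ i k, Wn G 1 (.w i) (.x k) := by
    intro i k
    apply hadj
    simp only [AdjOf, bdA]
    grind
  have hax : ∀ j k, k ≠ rtA (col j) → Wn G 1 (.a j) (.x k) := by
    intro j k hk
    apply hadj
    simp only [AdjOf, bdA]
    grind
  have hba : ∀ j, Wn G 1 (.b j) (.a j) := by
    intro j
    apply hadj
    simp [AdjOf, bdA]
  have hbw : ∀ j, ∀ i ∈ sc j, Wn G 1 (.b j) (.w i) := by
    intro j i hi
    apply hadj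
    simp [AdjOf, bdA, hi]
  have haw : ∀ j, ∀ i ∈ sc j, Wn G 1 (.a j) (.w i) := by
    intro j i hi
    apply hadj
    simp [AdjOf, bdA, hi]
  have hgw : ∀ j, ∀ i ∈ sc j, Wn G 1 (.g j) (.w i) := by
    intro j i hi
    apply hadj
    simp [AdjOf, bdA, hi]
  have hax2 : ∀ j k, Wn G 2 (.a j) (.x k) := by
    intro j k
    obtain ⟨i, hi⟩ := hsc j
    exact (haw j i hi).trans (hwx i k)
  have hbx2 : ∀ j k, Wn G 2 (.b j) (.x k) := by
    intro j k
    obtain ⟨i, hi⟩ := hsc j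
    exact (hbw j i hi).trans (hwx i k)
  have hgx2 : ∀ j k, Wn G 2 (.g j) (.x k) := by
    intro j k
    obtain ⟨i, hi⟩ := hsc j
    exact (hgw j i hi).trans (hwx i k)
  have hcard : ∀ c : Bool, Fintype.card (Fin 3) <
      2 * (Finset.univ.filter fun k : Fin 3 => k ≠ rtA c).card := by decide
  have huniv : Fintype.card (Fin 3) < 2 * (Finset.univ : Finset (Fin 3)).card := by decide
  refine wide_ofBounds (bdA_le (by omega) col sc) (fun k : Fin 3 => VA.x k) k ?_ ?_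
  · have h02 : ∀ k : Fin 3, k ≠ 0 → (0 : Fin 3) < k := by decide
    rintro (k | i | j | j | j)
    · by_cases hk : k = 0
      · refine ⟨.x 1, ?_⟩
        rw [hk]
        simp [AdjOf, bdA]
      · refine ⟨.x 0, ?_⟩
        have := h02 k hk
        simp only [AdjOf, bdA]
        grind
    · exact ⟨.x 0, by simp [AdjOf, bdA]⟩
    · exact ⟨.x 2, by simp [AdjOf, bdA]⟩
    · exact ⟨.a j, by simp [AdjOf, bdA]⟩
    · exact ⟨.b j, by simp [AdjOf, bdA]⟩
  · rintro (k1 | i | j | j | j) (k2 | i' | j' | j' | j') hne hbd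
    · simp only [bdA] at hbd ⊢
      split_ifs at hbd ⊢ with h1 h2
      · refine ⟨{0, 1}, by decide, fun i hi => ?_⟩
        rw [Finset.mem_insert, Finset.mem_singleton] at hi
        rcases hi with rfl | rfl
        · exact ⟨0, 1, h1.1 ▸ Wn.refl _ _, hxx _ _, by omega⟩
        · exact ⟨1, 0, hxx _ _, h1.2 ▸ Wn.refl _ _, by omega⟩
      · exact ⟨Finset.univ, huniv, fun i _ => ⟨1, 1, hxx _ _, hxx _ _, by omega⟩⟩
      · exact (hbd rfl).elim
    · exact (hbd rfl).elim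
    · exact (hbd rfl).elim
    · exact (hbd rfl).elim
    · exact (hbd rfl).elim
    · refine ⟨Finset.univ, huniv, fun l _ => ⟨1, 1, hwx _ _, hxx _ _, ?_⟩⟩
      simp only [bdA]
      split_ifs <;> omega
    · simp only [bdA] at hbd ⊢
      split_ifs at hbd ⊢ with h1
      · exact (hbd rfl).elim
      · exact ⟨Finset.univ, huniv, fun l _ => ⟨1, 1, hwx _ _, hwx _ _, by omega⟩⟩
    · exact (hbd rfl).elim
    · exact (hbd rfl).elim
    · exact (hbd rfl).elim
    · simp only [bdA] at hbd ⊢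
      refine ⟨_, hcard (col j), fun l hl => ⟨1, 1, hax _ _ (Finset.mem_filter.1 hl).2,
        hxx _ _, ?_⟩⟩
      split_ifs at hbd ⊢ <;> omega
    · simp only [bdA] at hbd ⊢
      split_ifs at hbd ⊢ with h1
      · exact ⟨Finset.univ, huniv, fun l _ => ⟨2, 1, hax2 _ _, hwx _ _, by omega⟩⟩
      · exact (hbd rfl).elim
    · exact (hbd rfl).elim
    · exact (hbd rfl).elim
    · exact (hbd rfl).elim
    · exact (hbd rfl).elim
    · simp only [bdA] at hbd ⊢
      split_ifs at hbd ⊢ with h1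
      · exact ⟨Finset.univ, huniv, fun l _ => ⟨2, 1, hbx2 _ _, hwx _ _, by omega⟩⟩
      · exact (hbd rfl).elim
    · simp only [bdA] at hbd ⊢
      split_ifs at hbd ⊢ with h1
      · subst h1
        exact ⟨_, hcard (col j), fun l hl => ⟨2, 1, hbx2 _ _,
          hax _ _ (Finset.mem_filter.1 hl).2, by omega⟩⟩
      · exact (hbd rfl).elim
    · exact (hbd rfl).elim
    · exact (hbd rfl).elim
    · exact (hbd rfl).elim
    · simp only [bdA] at hbd ⊢
      split_ifs at hbd ⊢ with h1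
      · exact ⟨Finset.univ, huniv, fun l _ => ⟨2, 1, hgx2 _ _, hwx _ _, by omega⟩⟩
      · exact (hbd rfl).elim
    · exact (hbd rfl).elim
    · simp only [bdA] at hbd ⊢
      split_ifs at hbd ⊢ with h1
      · exact ⟨Finset.univ, huniv, fun l _ => ⟨2, 2, hgx2 _ _, hbx2 _ _, by omega⟩⟩
      · exact (hbd rfl).elim
    · exact (hbd rfl).elim

theorem coreB_wide {t k : ℕ} (hk : 2 ≤ k) (ht : t = 2 * k + 1) {col : J → Fin 4}
    {sc : J → Finset ι} (hsc : ∀ j, (sc j).Nonempty) :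
    (coreB t col sc).Wide (fun k : Fin 5 => VB.x k) k := by
  classical
  set G := (LG.ofBounds t (VB ι J) (bdB col sc)).G with hG
  have hadj : ∀ {u v}, AdjOf (bdB col sc) u v → Wn G 1 u v := fun h => Wn.adj h
  have hxx : ∀ k l, Wn G 1 (.x k) (.x l) := by
    intro k l
    rcases lt_trichotomy k l with h | h | h
    · apply hadj
      simp [AdjOf, bdB, h, h.ne]
    · rw [h]; exact Wn.refl _ _
    · apply hadj
      simp [AdjOf, bdB, h, h.ne']
  have hwx : ∀ c i k, k ≠ c → Wn G 1 (.w c i) (.x k) := by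
    intro c i k hk
    apply hadj
    simp [AdjOf, bdB, hk]
  have hax : ∀ c j k, k ≠ c → k ≠ rtB c (col j) → Wn G 1 (.a c j) (.x k) := by
    intro c j k hk hk'
    apply hadj
    simp [AdjOf, bdB, hk, hk']
  have haw : ∀ c j, ∀ i ∈ sc j, Wn G 1 (.a c j) (.w c i) := by
    intro c j i hi
    apply hadj
    simp [AdjOf, bdB, hi]
  have hbw : ∀ c j, ∀ i ∈ sc j, Wn G 1 (.b c j) (.w c i) := by
    intro c j i hi
    apply hadj
    simp [AdjOf, bdB, hi]
  have hgw : ∀ c j, ∀ i ∈ sc j, Wn G 1 (.g c j) (.w c i) := by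
    intro c j i hi
    apply hadj
    simp [AdjOf, bdB, hi]
  have hax2 : ∀ c j k, k ≠ c → Wn G 2 (.a c j) (.x k) := by
    intro c j k hk
    obtain ⟨i, hi⟩ := hsc j
    exact (haw c j i hi).trans (hwx c i k hk)
  have hbx2 : ∀ c j k, k ≠ c → Wn G 2 (.b c j) (.x k) := by
    intro c j k hk
    obtain ⟨i, hi⟩ := hsc j
    exact (hbw c j i hi).trans (hwx c i k hk)
  have hgx2 : ∀ c j k, k ≠ c → Wn G 2 (.g c j) (.x k) := by
    intro c j k hk
    obtain ⟨i, hi⟩ := hsc j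
    exact (hgw c j i hi).trans (hwx c i k hk)
  have hcard : ∀ (c : Fin 5) (d : Fin 4), Fintype.card (Fin 5) <
      2 * (Finset.univ.filter fun k : Fin 5 => k ≠ c ∧ k ≠ rtB c d).card := by decide
  have hcard' : ∀ (c : Fin 5), Fintype.card (Fin 5) <
      2 * (Finset.univ.filter fun k : Fin 5 => k ≠ c).card := by decide
  have huniv : Fintype.card (Fin 5) < 2 * (Finset.univ : Finset (Fin 5)).card := by decide
  refine wide_ofBounds (bdB_le (by omega) col sc) (fun k : Fin 5 => VB.x k) k ?_ ?_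
  · have hex : ∀ k : Fin 5, ∃ l : Fin 5, k < l ∨ l < k := by decide
    have hex2 : ∀ c k : Fin 5, ∃ l : Fin 5, l ≠ c ∧ l ≠ k := by decide
    rintro (k | ⟨c, i⟩ | ⟨c, j⟩ | ⟨c, j⟩ | ⟨c, j⟩)
    · obtain ⟨l, hl⟩ := hex k
      refine ⟨.x l, ?_⟩
      rcases hl with hl | hl
      · simp [AdjOf, bdB, hl, hl.ne]
      · simp [AdjOf, bdB, hl, hl.ne']
    · obtain ⟨l, hl, -⟩ := hex2 c c
      exact ⟨.x l, by simp [AdjOf, bdB, hl]⟩
    · obtain ⟨l, hl, hl'⟩ := hex2 c (rtB c (col j))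
      exact ⟨.x l, by simp [AdjOf, bdB, hl, hl']⟩
    · exact ⟨.a c j, by simp [AdjOf, bdB]⟩
    · exact ⟨.b c j, by simp [AdjOf, bdB]⟩
  · rintro (k1 | ⟨c, i⟩ | ⟨c, j⟩ | ⟨c, j⟩ | ⟨c, j⟩)
      (k2 | ⟨c', i'⟩ | ⟨c', j'⟩ | ⟨c', j'⟩ | ⟨c', j'⟩) hne hbd
    · simp only [bdB] at hbd ⊢
      split_ifs at hbd ⊢ with h1
      · exact ⟨Finset.univ, huniv, fun i _ => ⟨1, 1, hxx _ _, hxx _ _, by omega⟩⟩
      · exact (hbd rfl).elim
    · exact (hbd rfl).elim
    · exact (hbd rfl).elim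
    · exact (hbd rfl).elim
    · exact (hbd rfl).elim
    · simp only [bdB] at hbd ⊢
      split_ifs at hbd ⊢ with h1
      · exact (hbd rfl).elim
      · exact ⟨_, hcard' c, fun l hl => ⟨1, 1, hwx _ _ _ (Finset.mem_filter.1 hl).2,
          hxx _ _, by omega⟩⟩
    · simp only [bdB] at hbd ⊢
      split_ifs at hbd ⊢ with h1
      · obtain ⟨rfl, -⟩ := h1
        exact ⟨_, hcard' c, fun l hl => ⟨1, 1, hwx _ _ _ (Finset.mem_filter.1 hl).2,
          hwx _ _ _ (Finset.mem_filter.1 hl).2, by omega⟩⟩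
      · exact (hbd rfl).elim
    · exact (hbd rfl).elim
    · exact (hbd rfl).elim
    · exact (hbd rfl).elim
    · simp only [bdB] at hbd ⊢
      split_ifs at hbd ⊢ with h1
      · exact (hbd rfl).elim
      · exact ⟨_, hcard c (col j), fun l hl => ⟨1, 1, hax _ _ _ (Finset.mem_filter.1 hl).2.1
          (Finset.mem_filter.1 hl).2.2, hxx _ _, by omega⟩⟩
    · simp only [bdB] at hbd ⊢
      split_ifs at hbd ⊢ with h1
      · obtain ⟨rfl, -⟩ := h1
        exact ⟨_, hcard' c, fun l hl => ⟨2, 1, hax2 _ _ _ (Finset.mem_filter.1 hl).2,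
          hwx _ _ _ (Finset.mem_filter.1 hl).2, by omega⟩⟩
      · exact (hbd rfl).elim
    · exact (hbd rfl).elim
    · exact (hbd rfl).elim
    · exact (hbd rfl).elim
    · exact (hbd rfl).elim
    · simp only [bdB] at hbd ⊢
      split_ifs at hbd ⊢ with h1
      · obtain ⟨rfl, -⟩ := h1
        exact ⟨_, hcard' c, fun l hl => ⟨2, 1, hbx2 _ _ _ (Finset.mem_filter.1 hl).2,
          hwx _ _ _ (Finset.mem_filter.1 hl).2, by omega⟩⟩
      · exact (hbd rfl).elim
    · simp only [bdB] at hbd ⊢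
      split_ifs at hbd ⊢ with h1
      · obtain ⟨rfl, rfl⟩ := h1
        exact ⟨_, hcard c (col j), fun l hl => ⟨2, 1, hbx2 _ _ _ (Finset.mem_filter.1 hl).2.1,
          hax _ _ _ (Finset.mem_filter.1 hl).2.1 (Finset.mem_filter.1 hl).2.2, by omega⟩⟩
      · exact (hbd rfl).elim
    · exact (hbd rfl).elim
    · exact (hbd rfl).elim
    · exact (hbd rfl).elim
    · simp only [bdB] at hbd ⊢
      split_ifs at hbd ⊢ with h1
      · obtain ⟨rfl, -⟩ := h1
        exact ⟨_, hcard' c, fun l hl => ⟨2, 1, hgx2 _ _ _ (Finset.mem_filter.1 hl).2,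
          hwx _ _ _ (Finset.mem_filter.1 hl).2, by omega⟩⟩
      · exact (hbd rfl).elim
    · exact (hbd rfl).elim
    · simp only [bdB] at hbd ⊢
      split_ifs at hbd ⊢ with h1
      · obtain ⟨rfl, rfl⟩ := h1
        exact ⟨_, hcard' c, fun l hl => ⟨2, 2, hgx2 _ _ _ (Finset.mem_filter.1 hl).2,
          hbx2 _ _ _ (Finset.mem_filter.1 hl).2, by omega⟩⟩
      · exact (hbd rfl).elim
    · exact (hbd rfl).elim

end Pool.Agent.TSpan33
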