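import Pool.Agent.TSpan33.Complete
import Pool.Agent.TSpan33.Shape
import Pool.Agent.TSpan33.Reduce

/-!
# Putting everything together
-/

set_option autoImplicit false

namespace Pool.Agent.TSpan33

open SimpleGraph

theorem scA_nonempty {n m : ℕ} (φ : Fin m → Fin 3 → Fin n × Bool) (j : JA n m) :
    (scA φ j).Nonempty := by
  rcases j with j | p
  · exact ⟨φ j 0, by simp [scA]⟩
  · exact ⟨(p.1, true), by simp [scA]⟩

theorem scB_nonempty {n m : ℕ} (φ : Fin m → Fin 3 → Fin n × Bool) (j : JB n m) :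
    (scB φ j).Nonempty := by
  rcases j with j | p
  · exact scA_nonempty φ j
  · exact ⟨p.1, by simp [scB]⟩

/-- Satisfiability and the constraints for even `t`. -/
theorem satA {n m : ℕ} (φ : Fin m → Fin 3 → Fin n × Bool) :
    (∃ f : Fin n × Bool → Bool, ∀ j : JA n m, ∃ i ∈ scA φ j, f i ≠ colA j) ↔
      ∃ τ : Fin n → Bool, ∀ j, ∃ k, τ (φ j k).1 = (φ j k).2 := by
  constructor
  · rintro ⟨f, hf⟩
    refine ⟨fun v => f (v, true), fun j => ?_⟩
    have hneg : ∀ v, f (v, false) = !f (v, true) := by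
      intro v
      obtain ⟨i, hi, h1⟩ := hf (.inr (v, true))
      obtain ⟨i', hi', h2⟩ := hf (.inr (v, false))
      simp only [scA, Finset.mem_insert, Finset.mem_singleton] at hi hi'
      simp only [colA] at h1 h2
      rcases hi with rfl | rfl <;> rcases hi' with rfl | rfl <;>
        revert h1 h2 <;> cases f (v, true) <;> cases f (v, false) <;> simp
    obtain ⟨i, hi, h1⟩ := hf (.inl j)
    have h2 : f i = true := by
      simp only [colA] at h1
      revert h1
      cases f i <;> simp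
    have h3 : ∃ k, φ j k = i := by
      simp only [scA, Finset.mem_insert, Finset.mem_singleton] at hi
      rcases hi with h | h | h
      · exact ⟨0, h.symm⟩
      · exact ⟨1, h.symm⟩
      · exact ⟨2, h.symm⟩
    obtain ⟨k, hk⟩ := h3
    refine ⟨k, ?_⟩
    rw [hk]
    obtain ⟨v, c⟩ := i
    have h4 := hneg v
    cases c
    · rw [h2] at h4
      show f (v, true) = false
      revert h4
      cases f (v, true) <;> simp
    · exact h2
  · rintro ⟨τ, hτ⟩
    refine ⟨fun i => τ i.1 == i.2, ?_⟩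
    rintro (j | ⟨v, c⟩)
    · obtain ⟨k, hk⟩ := hτ j
      refine ⟨φ j k, ?_, by simp [colA, hk]⟩
      fin_cases k <;> simp [scA]
    · refine ⟨(v, τ v == !c), ?_, ?_⟩
      · simp only [scA, Finset.mem_insert, Finset.mem_singleton]
        cases (τ v == !c) <;> simp
      · simp only [colA]
        cases τ v <;> cases c <;> simp

/-- Satisfiability and the constraints for odd `t`. -/
theorem satB {n m : ℕ} (φ : Fin m → Fin 3 → Fin n × Bool) :
    (∃ f : Fin n × Bool → Fin 4, ∀ j : JB n m, ∃ i ∈ scB φ j, f i ≠ colB j) ↔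
      ∃ τ : Fin n → Bool, ∀ j, ∃ k, τ (φ j k).1 = (φ j k).2 := by
  rw [← satA]
  constructor
  · rintro ⟨f, hf⟩
    have h01 : ∀ i, f i = 0 ∨ f i = 1 := by
      intro i
      obtain ⟨i1, hi1, h1⟩ := hf (.inr (i, true))
      obtain ⟨i2, hi2, h2⟩ := hf (.inr (i, false))
      simp only [scB, Finset.mem_singleton] at hi1 hi2
      rw [hi1] at h1
      rw [hi2] at h2
      have h3 : f i ≠ 2 := h1
      have h4 : f i ≠ 3 := h2
      have h5 : ∀ z : Fin 4, z ≠ 2 → z ≠ 3 → z = 0 ∨ z = 1 := by decide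
      exact h5 _ h3 h4
    refine ⟨fun i => decide (f i = 0), fun j => ?_⟩
    obtain ⟨i, hi, h1⟩ := hf (.inl j)
    refine ⟨i, hi, ?_⟩
    simp only [colB] at h1
    show decide (f i = 0) ≠ colA j
    rcases h01 i with h | h <;> rw [h] at h1 ⊢ <;> revert h1 <;> cases colA j <;> simp
  · rintro ⟨f, hf⟩
    refine ⟨fun i => if f i then 0 else 1, ?_⟩
    rintro (j | ⟨i, c⟩)
    · obtain ⟨i, hi, h1⟩ := hf j
      refine ⟨i, hi, ?_⟩
      simp only [colB]
      revert h1
      cases f i <;> cases colA j <;> simp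
    · refine ⟨i, by simp [scB], ?_⟩
      simp only [colB]
      cases f i <;> cases c <;> simp

theorem card_VA {n m : ℕ} : Fintype.card (VA (Fin n × Bool) (JA n m)) = 3 + 8 * n + 3 * m := by
  rw [Fintype.card_congr eA]
  simp only [Fintype.card_sum, Fintype.card_prod, Fintype.card_fin, Fintype.card_bool]
  ring

theorem card_VB {n m : ℕ} :
    Fintype.card (VB (Fin n × Bool) (JB n m)) = 5 + 100 * n + 15 * m := by
  rw [Fintype.card_congr eB]
  simp only [Fintype.card_sum, Fintype.card_prod, Fintype.card_fin, Fintype.card_bool]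
  ring

theorem ofBounds_lev_lt {V : Type} [Fintype V] [DecidableEq V] {bd : V → V → ℕ} {t : ℕ}
    (ht : 0 < t) (u v : V) : (LG.ofBounds t V bd).lev u v < t := by
  show (if bd u v = 0 then 0 else t - bd u v) < t
  split_ifs with h
  · exact ht
  · omega

/-- Common consequences for a core. -/
theorem core_all {t k : ℕ} (ht : 0 < t) {A : LG} {κ : Type} [Fintype κ] {x : κ → A.V}
    (hne : Nonempty A.V) (hlev : ∀ u v, A.lev u v < t) (hrk : HasRk A.G) (hw : A.Wide x k) :
    (LG.steps t A).G.Connected ∧ IsChordal (LG.steps t A).G ∧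
    (∀ u v, (LG.steps t A).G.dist u v ≤ 2 * k) ∧
    (A.HasPar t → ∃ T, IsTreeSpanner t (LG.steps t A).G T) ∧
    ((∃ T, IsTreeSpanner t (LG.steps t A).G T) → A.Has t) := by
  obtain ⟨x', hx'⟩ := hw.steps t
  have hne' : ∀ n, ∀ A : LG, Nonempty A.V → Nonempty (LG.steps n A).V := by
    intro n
    induction n with
    | zero => exact fun A h => h
    | succ n ih =>
      intro A h
      obtain ⟨a⟩ := h
      exact ih A.step ⟨(Sum.inl a : A.V ⊕ A.Y)⟩
  have hc := hx'.connected (hne' t A hne)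
  have h0 := LG.steps_lev_eq_zero t (A := A) fun u v => (hlev u v).le
  refine ⟨hc, (hrk.steps t).isChordal, fun u v => (hx'.wn u v).dist_le, ?_, ?_⟩
  · intro h
    exact (LG.has_iff hc h0).1 (h.steps t).has
  · intro h
    exact LG.Has.of_steps ht t hlev ((LG.has_iff hc h0).2 h)

theorem main_even {t : ℕ} (ht : 4 ≤ t) (hev : t % 2 = 0) {n m : ℕ}
    (φ : Fin m → Fin 3 → Fin n × Bool) :
    (red t φ).G.Connected ∧ IsChordal (red t φ).G ∧
    (∀ u v, (red t φ).G.dist u v ≤ 2 * (t / 2)) ∧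
    Fintype.card (red t φ).V ≤ 2 ^ (t + 1) * (5 + 100 * n + 15 * m) ^ 2 ∧
    ((∃ T, IsTreeSpanner t (red t φ).G T) ↔
      ∃ τ : Fin n → Bool, ∀ j, ∃ k, τ (φ j k).1 = (φ j k).2) := by
  have e : red t φ = LG.steps t (coreA t colA (scA φ)) := by rw [red, if_pos hev]; rfl
  rw [e]
  obtain ⟨h1, h2, h3, h4, h5⟩ := core_all (t := t) (k := t / 2) (by omega)
    (A := coreA t colA (scA φ)) (x := fun k : Fin 3 => VA.x k)
    ⟨(VA.x 0 : VA (Fin n × Bool) (JA n m))⟩
    (fun u v => ofBounds_lev_lt (by omega) u v) (coreA_rk t colA (scA φ))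
    (coreA_wide (by omega) (by omega) (scA_nonempty φ))
  refine ⟨h1, h2, h3, ?_, ?_⟩
  · refine (LG.card_steps_le t _).trans (Nat.mul_le_mul_left _ (Nat.pow_le_pow_left ?_ 2))
    have : Fintype.card (coreA t colA (scA φ)).V = Fintype.card (VA (Fin n × Bool) (JA n m)) :=
      rfl
    rw [this, card_VA]
    omega
  · rw [← satA]
    constructor
    · intro h
      exact coreA_sound ht (scA_nonempty φ) (h5 h)
    · rintro ⟨f, hf⟩
      exact h4 (coreA_complete ht hf)

theorem main_odd {t : ℕ} (ht : 4 ≤ t) (hodd : ¬ t % 2 = 0) {n m : ℕ}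
    (φ : Fin m → Fin 3 → Fin n × Bool) :
    (red t φ).G.Connected ∧ IsChordal (red t φ).G ∧
    (∀ u v, (red t φ).G.dist u v ≤ 2 * (t / 2)) ∧
    Fintype.card (red t φ).V ≤ 2 ^ (t + 1) * (5 + 100 * n + 15 * m) ^ 2 ∧
    ((∃ T, IsTreeSpanner t (red t φ).G T) ↔
      ∃ τ : Fin n → Bool, ∀ j, ∃ k, τ (φ j k).1 = (φ j k).2) := by
  have e : red t φ = LG.steps t (coreB t colB (scB φ)) := by rw [red, if_neg hodd]; rfl
  rw [e]
  obtain ⟨h1, h2, h3, h4, h5⟩ := core_all (t := t) (k := t / 2) (by omega)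
    (A := coreB t colB (scB φ)) (x := fun k : Fin 5 => VB.x k)
    ⟨(VB.x 0 : VB (Fin n × Bool) (JB n m))⟩
    (fun u v => ofBounds_lev_lt (by omega) u v) (coreB_rk t colB (scB φ))
    (coreB_wide (by omega) (by omega) (scB_nonempty φ))
  refine ⟨h1, h2, h3, ?_, ?_⟩
  · refine (LG.card_steps_le t _).trans (Nat.mul_le_mul_left _ (Nat.pow_le_pow_left ?_ 2))
    have : Fintype.card (coreB t colB (scB φ)).V = Fintype.card (VB (Fin n × Bool) (JB n m)) :=
      rfl
    rw [this, card_VB]
  · constructor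
    · intro h
      rcases Nat.eq_zero_or_pos n with hn | hn
      · subst hn
        exact ⟨fun v => v.elim0, fun j => (φ j 0).1.elim0⟩
      · rw [← satB]
        refine coreB_sound (by omega) (scB_nonempty φ) ?_ (h5 h)
        intro d
        let v : Fin n := ⟨0, hn⟩
        have h0 : colB (.inl (.inr (v, true)) : JB n m) = 0 := rfl
        have h1 : colB (.inl (.inr (v, false)) : JB n m) = 1 := rfl
        have h2 : colB (.inr ((v, true), true) : JB n m) = 2 := rfl
        have h3 : colB (.inr ((v, true), false) : JB n m) = 3 := rfl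
        fin_cases d
        · exact ⟨_, h0⟩
        · exact ⟨_, h1⟩
        · exact ⟨_, h2⟩
        · exact ⟨_, h3⟩
    · rw [← satB]
      rintro ⟨f, hf⟩
      exact h4 (coreB_complete (by omega) hf)

end Pool.Agent.TSpan33
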