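import Pool.Agent.TSpan33.SoundB

/-!
# Completeness: a solution of the constraints gives a tree
-/

set_option autoImplicit false
set_option linter.unusedSectionVars false

namespace Pool.Agent.TSpan33

open SimpleGraph

theorem hasPar_ofBounds {V : Type} [Fintype V] [DecidableEq V] {bd : V → V → ℕ} {t : ℕ}
    (hbt : ∀ u v, bd u v ≤ t) (r : V) (par : V → V) (dep : V → ℕ)
    (h1 : ∀ v, v ≠ r → AdjOf bd v (par v) ∧ dep (par v) < dep v)
    (h2 : ∀ u v, u ≠ v → bd u v ≠ 0 → Wn (parGraph r par) (bd u v) u v) :
    (LG.ofBounds t V bd).HasPar t := by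
  refine ⟨r, par, dep, h1, ?_⟩
  intro u v huv
  have huv' : u ≠ v ∧ (bd u v ≠ 0 ∨ bd v u ≠ 0) := huv
  show ∃ n, n + (if bd u v = 0 then 0 else t - bd u v) ≤ t ∧ Wn (parGraph r par) n u v
  by_cases hb : bd u v = 0
  · have hb' : bd v u ≠ 0 := huv'.2.resolve_left (fun h => h hb)
    refine ⟨bd v u, ?_, (h2 v u huv'.1.symm hb').symm⟩
    rw [if_pos hb]
    exact hbt v u
  · refine ⟨bd u v, ?_, h2 u v huv'.1 hb⟩
    rw [if_neg hb]
    have := hbt u v
    omega

theorem parGraph_wn {V : Type*} (r : V) (par : V → V) {v : V} (hv : v ≠ r) (hne : v ≠ par v) :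
    Wn (parGraph r par) 1 v (par v) :=
  Wn.adj ⟨hne, Or.inl ⟨hv, rfl⟩⟩

variable {ι J : Type} [Fintype ι] [Fintype J] [DecidableEq ι] [DecidableEq J]

theorem coreA_complete {t : ℕ} (ht : 4 ≤ t) {col : J → Bool} {sc : J → Finset ι}
    {f : ι → Bool} (hf : ∀ j, ∃ i ∈ sc j, f i ≠ col j) : (coreA t col sc).HasPar t := by
  classical
  choose s hs hfs using hf
  let par : VA ι J → VA ι J
    | .x _ => .x 0
    | .w i => .x (rtA (f i))
    | .a j => .x (rtA (!col j))
    | .b j => .w (s j)
    | .g j => .w (s j)
  let dep : VA ι J → ℕ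
    | .x k => if k = 0 then 0 else 1
    | .w _ => 2
    | .a _ => 2
    | .b _ => 3
    | .g _ => 3
  refine hasPar_ofBounds (bdA_le ht col sc) (.x 0) par dep ?_ ?_
  · rintro (k | i | j | j | j) hv
    · have hk : k ≠ 0 := fun e => hv (by rw [e])
      refine ⟨⟨hv, ?_⟩, by simp [par, dep, hk]⟩
      have hk' : 0 < k := Fin.pos_iff_ne_zero.2 hk
      right
      simp only [bdA, par]
      split_ifs <;> simp
    · refine ⟨⟨by simp [par], ?_⟩, ?_⟩
      · left
        simp only [bdA, par]
        split_ifs <;> norm_num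
      · simp only [par, dep]
        split_ifs <;> omega
    · refine ⟨⟨by simp [par], ?_⟩, ?_⟩
      · left
        rcases h : col j <;> simp [bdA, par, rtA, h]
      · simp only [par, dep]
        split_ifs <;> omega
    · refine ⟨⟨by simp [par], ?_⟩, by simp [par, dep]⟩
      left
      simp [bdA, par, hs j]
    · refine ⟨⟨by simp [par], ?_⟩, by simp [par, dep]⟩
      left
      simp [bdA, par, hs j]
  · set P := parGraph (.x 0) par with hP
    have hx0 : ∀ k, Wn P 1 (.x k) (.x 0) := by
      intro k
      by_cases hk : k = 0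
      · rw [hk]
        exact Wn.refl _ _
      · exact parGraph_wn (.x 0) par (v := .x k) (by simpa using hk) (by simpa [par] using hk)
    have hxx : ∀ k l, Wn P 2 (.x k) (.x l) := fun k l => (hx0 k).trans (hx0 l).symm
    have hrr : ∀ c : Bool, ∀ k : Fin 3, k ≠ 2 → Wn P 1 (.x (rtA c)) (.x k) := by
      intro c k hk
      have h2 : k = 0 ∨ k = 1 := by
        revert hk
        revert k
        decide
      rcases c with _ | _ <;> rcases h2 with rfl | rfl
      · exact Wn.refl _ _
      · exact (hx0 1).symm
      · exact hx0 1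
      · exact Wn.refl _ _
    have hr2 : ∀ c : Bool, rtA c ≠ 2 := by decide
    have hw : ∀ i, Wn P 1 (.w i) (.x (rtA (f i))) := fun i =>
      parGraph_wn (.x 0) par (v := .w i) (by simp) (by simp [par])
    have ha : ∀ j, Wn P 1 (.a j) (.x (rtA (!col j))) := fun j =>
      parGraph_wn (.x 0) par (v := .a j) (by simp) (by simp [par])
    have hb : ∀ j, Wn P 1 (.b j) (.w (s j)) := fun j =>
      parGraph_wn (.x 0) par (v := .b j) (by simp) (by simp [par])
    have hg : ∀ j, Wn P 1 (.g j) (.w (s j)) := fun j =>
      parGraph_wn (.x 0) par (v := .g j) (by simp) (by simp [par])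
    have hww : ∀ i i', Wn P 3 (.w i) (.w i') := fun i i' =>
      ((hw i).trans (hrr _ _ (hr2 _))).trans (hw i').symm
    rintro (k | i | j | j | j) (l | i' | j' | j' | j') hne hbd
    · have hkl : k ≠ l := fun e => hne (by rw [e])
      simp only [bdA] at hbd ⊢
      split_ifs at hbd ⊢ with h1 h2
      · rw [h1.1, h1.2]
        exact (hx0 1).symm
      · exact (hxx k l).mono (by norm_num)
      · exact (hbd rfl).elim
    · exact (hbd rfl).elim
    · exact (hbd rfl).elim
    · exact (hbd rfl).elim
    · exact (hbd rfl).elim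
    · simp only [bdA] at hbd ⊢
      split_ifs with h1
      · exact ((hw i).trans (hxx _ _)).mono (by norm_num)
      · exact (hw i).trans (hrr _ _ h1)
    · simp only [bdA] at hbd ⊢
      split_ifs at hbd ⊢ with h1
      · exact (hbd rfl).elim
      · exact (hww i i').mono (by norm_num)
    · exact (hbd rfl).elim
    · exact (hbd rfl).elim
    · exact (hbd rfl).elim
    · simp only [bdA] at hbd ⊢
      split_ifs at hbd ⊢ with h1 h2
      · exact ((ha j).trans (hxx _ _)).mono (by norm_num)
      · exact (hbd rfl).elim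
      · exact (ha j).trans (hrr _ _ h1)
    · simp only [bdA] at hbd ⊢
      split_ifs at hbd ⊢ with h1
      · exact (((ha j).trans (hrr _ _ (hr2 _))).trans (hw i').symm).mono (by norm_num)
      · exact (hbd rfl).elim
    · exact (hbd rfl).elim
    · exact (hbd rfl).elim
    · exact (hbd rfl).elim
    · exact (hbd rfl).elim
    · simp only [bdA] at hbd ⊢
      split_ifs at hbd ⊢ with h1
      · exact ((hb j).trans (hww _ _)).mono (by norm_num)
      · exact (hbd rfl).elim
    · simp only [bdA] at hbd ⊢
      split_ifs at hbd ⊢ with h1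
      · subst h1
        have h2 : f (s j) = !col j := by
          have := hfs j
          revert this
          rcases f (s j) <;> rcases col j <;> simp
        have h3 := hw (s j)
        rw [h2] at h3
        exact ((hb j).trans h3).trans (ha j).symm
      · exact (hbd rfl).elim
    · exact (hbd rfl).elim
    · exact (hbd rfl).elim
    · exact (hbd rfl).elim
    · simp only [bdA] at hbd ⊢
      split_ifs at hbd ⊢ with h1
      · exact ((hg j).trans (hww _ _)).mono (by norm_num)
      · exact (hbd rfl).elim
    · exact (hbd rfl).elim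
    · simp only [bdA] at hbd ⊢
      split_ifs at hbd ⊢ with h1
      · subst h1
        exact ((hg j).trans (hb j).symm).mono (by norm_num)
      · exact (hbd rfl).elim
    · exact (hbd rfl).elim

theorem coreB_complete {t : ℕ} (ht : 5 ≤ t) {col : J → Fin 4} {sc : J → Finset ι}
    {f : ι → Fin 4} (hf : ∀ j, ∃ i ∈ sc j, f i ≠ col j) : (coreB t col sc).HasPar t := by
  classical
  choose s hs hfs using hf
  have hex : ∀ c k : Fin 5, ∃ l : Fin 5, l ≠ c ∧ l ≠ k := by decide
  choose h hh1 hh2 using hex
  have hrt : ∀ (c : Fin 5) (d : Fin 4), rtB c d ≠ c := by decide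
  have hrti : ∀ (c : Fin 5) (d d' : Fin 4), d ≠ d' → rtB c d ≠ rtB c d' := by decide
  let wp : Fin 5 → ι → Fin 5 := fun c i => if c = 0 then rtB 0 (f i) else 0
  let ap : Fin 5 → J → Fin 5 := fun c j =>
    if c = 0 then rtB 0 (f (s j)) else h c (rtB c (col j))
  have hwp : ∀ c i, wp c i ≠ c := by
    intro c i
    by_cases hc : c = 0
    · simp only [wp, hc, if_true]
      exact hrt _ _
    · simp only [wp, hc, if_false]
      exact fun e => hc e.symm
  have hap1 : ∀ c j, ap c j ≠ c := by
    intro c j
    by_cases hc : c = 0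
    · simp only [ap, hc, if_true]
      exact hrt _ _
    · simp only [ap, hc, if_false]
      exact hh1 _ _
  have hap2 : ∀ c j, ap c j ≠ rtB c (col j) := by
    intro c j
    by_cases hc : c = 0
    · simp only [ap, hc, if_true]
      exact hrti _ _ _ (hfs j)
    · simp only [ap, hc, if_false]
      exact hh2 _ _
  let par : VB ι J → VB ι J
    | .x _ => .x 0
    | .w c i => .x (wp c i)
    | .a c j => .x (ap c j)
    | .b c j => .w c (s j)
    | .g c j => .w c (s j)
  let dep : VB ι J → ℕ
    | .x k => if k = 0 then 0 else 1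
    | .w _ _ => 2
    | .a _ _ => 2
    | .b _ _ => 3
    | .g _ _ => 3
  refine hasPar_ofBounds (bdB_le ht col sc) (.x 0) par dep ?_ ?_
  · rintro (k | ⟨c, i⟩ | ⟨c, j⟩ | ⟨c, j⟩ | ⟨c, j⟩) hv
    · have hk : k ≠ 0 := fun e => hv (by rw [e])
      refine ⟨⟨hv, ?_⟩, by simp [par, dep, hk]⟩
      have hk' : 0 < k := Fin.pos_iff_ne_zero.2 hk
      right
      simp [bdB, par, hk']
    · refine ⟨⟨by simp [par], ?_⟩, ?_⟩
      · left
        simp [bdB, par, hwp c i]
      · simp only [par, dep]
        split_ifs <;> omega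
    · refine ⟨⟨by simp [par], ?_⟩, ?_⟩
      · left
        simp [bdB, par, hap1 c j, hap2 c j]
      · simp only [par, dep]
        split_ifs <;> omega
    · refine ⟨⟨by simp [par], ?_⟩, by simp [par, dep]⟩
      left
      simp [bdB, par, hs j]
    · refine ⟨⟨by simp [par], ?_⟩, by simp [par, dep]⟩
      left
      simp [bdB, par, hs j]
  · set P := parGraph (.x 0) par with hP
    have hx0 : ∀ k, Wn P 1 (.x k) (.x 0) := by
      intro k
      by_cases hk : k = 0
      · rw [hk]
        exact Wn.refl _ _
      · exact parGraph_wn (.x 0) par (v := .x k) (by simpa using hk) (by simpa [par] using hk)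
    have hxx : ∀ k l, Wn P 2 (.x k) (.x l) := fun k l => (hx0 k).trans (hx0 l).symm
    have hw : ∀ c i, Wn P 1 (.w c i) (.x (wp c i)) := fun c i =>
      parGraph_wn (.x 0) par (v := .w c i) (by simp) (by simp [par])
    have ha : ∀ c j, Wn P 1 (.a c j) (.x (ap c j)) := fun c j =>
      parGraph_wn (.x 0) par (v := .a c j) (by simp) (by simp [par])
    have hb : ∀ c j, Wn P 1 (.b c j) (.w c (s j)) := fun c j =>
      parGraph_wn (.x 0) par (v := .b c j) (by simp) (by simp [par])
    have hg : ∀ c j, Wn P 1 (.g c j) (.w c (s j)) := fun c j =>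
      parGraph_wn (.x 0) par (v := .g c j) (by simp) (by simp [par])
    have hww : ∀ c i i', Wn P 4 (.w c i) (.w c i') := fun c i i' =>
      ((hw c i).trans (hxx _ _)).trans (hw c i').symm
    rintro (k | ⟨c, i⟩ | ⟨c, j⟩ | ⟨c, j⟩ | ⟨c, j⟩) (l | ⟨c', i'⟩ | ⟨c', j'⟩ | ⟨c', j'⟩ | ⟨c', j'⟩)
      hne hbd
    · simp only [bdB] at hbd ⊢
      split_ifs at hbd ⊢ with h1
      · exact (hxx k l).mono (by norm_num)
      · exact (hbd rfl).elim
    · exact (hbd rfl).elim
    · exact (hbd rfl).elim
    · exact (hbd rfl).elim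
    · exact (hbd rfl).elim
    · simp only [bdB] at hbd ⊢
      split_ifs at hbd ⊢ with h1
      · exact (hbd rfl).elim
      · exact (hw c i).trans (hxx _ _)
    · simp only [bdB] at hbd ⊢
      split_ifs at hbd ⊢ with h1
      · obtain ⟨rfl, -⟩ := h1
        exact (hww c i i').mono (by norm_num)
      · exact (hbd rfl).elim
    · exact (hbd rfl).elim
    · exact (hbd rfl).elim
    · exact (hbd rfl).elim
    · simp only [bdB] at hbd ⊢
      split_ifs at hbd ⊢ with h1
      · exact (hbd rfl).elim
      · exact (ha c j).trans (hxx _ _)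
    · simp only [bdB] at hbd ⊢
      split_ifs at hbd ⊢ with h1
      · exact (((ha c j).trans (hxx _ _)).trans (hw c' i').symm).mono (by norm_num)
      · exact (hbd rfl).elim
    · exact (hbd rfl).elim
    · exact (hbd rfl).elim
    · exact (hbd rfl).elim
    · exact (hbd rfl).elim
    · simp only [bdB] at hbd ⊢
      split_ifs at hbd ⊢ with h1
      · obtain ⟨rfl, -⟩ := h1
        exact ((hb c j).trans (hww _ _ _)).mono (by norm_num)
      · exact (hbd rfl).elim
    · simp only [bdB] at hbd ⊢
      split_ifs at hbd ⊢ with h1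
      · obtain ⟨rfl, rfl⟩ := h1
        by_cases hc : c = 0
        · subst hc
          have h2 : wp 0 (s j) = ap 0 j := by simp [wp, ap]
          have h3 := hw 0 (s j)
          rw [h2] at h3
          exact (((hb 0 j).trans h3).trans (ha 0 j).symm).mono (by norm_num)
        · have h3 := hw c (s j)
          have h4 : wp c (s j) = 0 := by simp [wp, hc]
          rw [h4] at h3
          exact (((hb c j).trans h3).trans (hx0 _).symm).trans (ha c j).symm
      · exact (hbd rfl).elim
    · exact (hbd rfl).elim
    · exact (hbd rfl).elim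
    · exact (hbd rfl).elim
    · simp only [bdB] at hbd ⊢
      split_ifs at hbd ⊢ with h1
      · obtain ⟨rfl, -⟩ := h1
        exact ((hg c j).trans (hww _ _ _)).mono (by norm_num)
      · exact (hbd rfl).elim
    · exact (hbd rfl).elim
    · simp only [bdB] at hbd ⊢
      split_ifs at hbd ⊢ with h1
      · obtain ⟨rfl, rfl⟩ := h1
        exact ((hg c j).trans (hb c j).symm).mono (by norm_num)
      · exact (hbd rfl).elim
    · exact (hbd rfl).elim

end Pool.Agent.TSpan33
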