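import Pool.Agent.TSpan33.Defs

/-!
# The two core graphs

`J` is a set of constraints over the variables `ι`; the constraint `j` says that some variable
`i ∈ sc j` has a value different from `col j`.
-/

set_option autoImplicit false

namespace Pool.Agent.TSpan33

variable {ι J : Type}

/-- The vertices of the core graph for even `t`. -/
inductive VA (ι J : Type) : Type
  | x (k : Fin 3)
  | w (i : ι)
  | a (j : J)
  | b (j : J)
  | g (j : J)

/-- `VA` as a sum of types. -/
def eA : VA ι J ≃ Fin 3 ⊕ ι ⊕ J ⊕ J ⊕ J where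
  toFun
    | .x k => .inl k
    | .w i => .inr (.inl i)
    | .a j => .inr (.inr (.inl j))
    | .b j => .inr (.inr (.inr (.inl j)))
    | .g j => .inr (.inr (.inr (.inr j)))
  invFun := Sum.elim .x (Sum.elim .w (Sum.elim .a (Sum.elim .b .g)))
  left_inv := by rintro (_ | _ | _ | _ | _) <;> rfl
  right_inv := by rintro (_ | _ | _ | _ | _) <;> rfl

instance [DecidableEq ι] [DecidableEq J] : DecidableEq (VA ι J) := eA.decidableEq

instance [Fintype ι] [Fintype J] : Fintype (VA ι J) := Fintype.ofEquiv _ eA.symm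

/-- The vertex `x (rtA c)` stands for the truth value `c`. -/
def rtA (c : Bool) : Fin 3 := if c then 1 else 0

/-- The bounds of the core graph for even `t`. -/
def bdA [DecidableEq ι] [DecidableEq J] (col : J → Bool) (sc : J → Finset ι) :
    VA ι J → VA ι J → ℕ
  | .x k, .x l => if k = 0 ∧ l = 1 then 1 else if k < l then 4 else 0
  | .w _, .x k => if k = 2 then 4 else 2
  | .w i, .w i' => if i = i' then 0 else 4
  | .a j, .x k => if k = 2 then 4 else if k = rtA (col j) then 0 else 2
  | .a j, .w i => if i ∈ sc j then 4 else 0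
  | .b j, .a j' => if j = j' then 3 else 0
  | .b j, .w i => if i ∈ sc j then 4 else 0
  | .g j, .b j' => if j = j' then 4 else 0
  | .g j, .w i => if i ∈ sc j then 4 else 0
  | _, _ => 0

/-- The vertices of the core graph for odd `t`. -/
inductive VB (ι J : Type) : Type
  | x (k : Fin 5)
  | w (c : Fin 5) (i : ι)
  | a (c : Fin 5) (j : J)
  | b (c : Fin 5) (j : J)
  | g (c : Fin 5) (j : J)

/-- `VB` as a sum of types. -/
def eB : VB ι J ≃ Fin 5 ⊕ (Fin 5 × ι) ⊕ (Fin 5 × J) ⊕ (Fin 5 × J) ⊕ (Fin 5 × J) where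
  toFun
    | .x k => .inl k
    | .w c i => .inr (.inl (c, i))
    | .a c j => .inr (.inr (.inl (c, j)))
    | .b c j => .inr (.inr (.inr (.inl (c, j))))
    | .g c j => .inr (.inr (.inr (.inr (c, j))))
  invFun := Sum.elim .x (Sum.elim (fun p => .w p.1 p.2) (Sum.elim (fun p => .a p.1 p.2)
    (Sum.elim (fun p => .b p.1 p.2) (fun p => .g p.1 p.2))))
  left_inv := by rintro (_ | _ | _ | _ | _) <;> rfl
  right_inv := by rintro (_ | _ | _ | _ | _) <;> rfl

set_option synthInstance.maxSize 1000 in
instance [DecidableEq ι] [DecidableEq J] : DecidableEq (VB ι J) := eB.decidableEq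

instance [Fintype ι] [Fintype J] : Fintype (VB ι J) := Fintype.ofEquiv _ eB.symm

/-- In the copy `c`, the vertex `x (rtB c d)` stands for the value `d`. -/
def rtB (c : Fin 5) (d : Fin 4) : Fin 5 := c + d.succ

/-- The bounds of the core graph for odd `t`. -/
def bdB [DecidableEq ι] [DecidableEq J] (col : J → Fin 4) (sc : J → Finset ι) :
    VB ι J → VB ι J → ℕ
  | .x k, .x l => if k < l then 3 else 0
  | .w c _, .x k => if k = c then 0 else 3
  | .w c i, .w c' i' => if c = c' ∧ i ≠ i' then 5 else 0
  | .a c j, .x k => if k = c ∨ k = rtB c (col j) then 0 else 3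
  | .a c j, .w c' i => if c = c' ∧ i ∈ sc j then 5 else 0
  | .b c j, .a c' j' => if c = c' ∧ j = j' then 4 else 0
  | .b c j, .w c' i => if c = c' ∧ i ∈ sc j then 5 else 0
  | .g c j, .b c' j' => if c = c' ∧ j = j' then 5 else 0
  | .g c j, .w c' i => if c = c' ∧ i ∈ sc j then 5 else 0
  | _, _ => 0

/-- The core levelled graph for even `t`. -/
def coreA [Fintype ι] [Fintype J] [DecidableEq ι] [DecidableEq J] (t : ℕ) (col : J → Bool)
    (sc : J → Finset ι) : LG :=
  LG.ofBounds t (VA ι J) (bdA col sc)

/-- The core levelled graph for odd `t`. -/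
def coreB [Fintype ι] [Fintype J] [DecidableEq ι] [DecidableEq J] (t : ℕ) (col : J → Fin 4)
    (sc : J → Finset ι) : LG :=
  LG.ofBounds t (VB ι J) (bdB col sc)

end Pool.Agent.TSpan33
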