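import Pool.Agent.TSpan33.Step

/-!
# Invariants of the gluing step: chordality, distances, number of vertices
-/

set_option autoImplicit false

namespace Pool.Agent.TSpan33

open SimpleGraph

/-! ### Chordality -/

/-- A rank function such that the neighbours of `v` of rank at least that of `v` form a clique. -/
def HasRk {V : Type*} (G : SimpleGraph V) : Prop :=
  ∃ rk : V → ℕ, ∀ v u u', G.Adj v u → G.Adj v u' → rk v ≤ rk u → rk v ≤ rk u' → u ≠ u' →
    G.Adj u u'

theorem HasRk.isChordal {V : Type*} {G : SimpleGraph V} (h : HasRk G) : IsChordal G := by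
  obtain ⟨rk, hrk⟩ := h
  intro n hn
  refine ⟨fun e => ?_⟩
  obtain ⟨m, rfl⟩ : ∃ m, n = m + 2 + 2 := ⟨n - 4, by omega⟩
  obtain ⟨i, -, hi⟩ := Finset.exists_min_image (Finset.univ : Finset (Fin (m + 2 + 2)))
    (fun i => rk (e i)) ⟨0, Finset.mem_univ _⟩
  have h1 : (cycleGraph (m + 2 + 2)).Adj i (i + 1) := by
    rw [cycleGraph_adj]
    right
    abel
  have h2 : (cycleGraph (m + 2 + 2)).Adj i (i - 1) := by
    rw [cycleGraph_adj]
    left
    abel
  have e1 : (1 : Fin (m + 2 + 2)).val = 1 := rfl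
  have e2 : ((1 : Fin (m + 2 + 2)) + 1).val = 2 := by
    rw [Fin.val_add, e1]
    exact Nat.mod_eq_of_lt (by omega)
  have e3 : ((1 : Fin (m + 2 + 2)) + 1 + 1).val = 3 := by
    rw [Fin.val_add, e2, e1]
    exact Nat.mod_eq_of_lt (by omega)
  have e0 : (0 : Fin (m + 2 + 2)).val = 0 := rfl
  have h3 : i + 1 ≠ i - 1 := by
    intro h
    have : (1 : Fin (m + 2 + 2)) + 1 = 0 := by
      calc (1 : Fin (m + 2 + 2)) + 1 = (i + 1) - (i - 1) := by abel
        _ = 0 := by rw [h, sub_self]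
    rw [this] at e2
    omega
  have h4 := hrk (e i) (e (i + 1)) (e (i - 1)) (e.map_adj_iff.2 h1) (e.map_adj_iff.2 h2)
    (hi _ (Finset.mem_univ _)) (hi _ (Finset.mem_univ _)) (fun h => h3 (e.injective h))
  rw [e.map_adj_iff, cycleGraph_adj] at h4
  rcases h4 with h4 | h4
  · have h5 : (1 : Fin (m + 2 + 2)) = 0 := by
      calc (1 : Fin (m + 2 + 2)) = ((i + 1) - (i - 1)) - 1 := by abel
        _ = 0 := by rw [h4, sub_self]
    rw [h5] at e1
    omega
  · have h5 : (1 : Fin (m + 2 + 2)) + 1 + 1 = 0 := by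
      calc (1 : Fin (m + 2 + 2)) + 1 + 1 = 1 - ((i - 1) - (i + 1)) := by abel
        _ = 0 := by rw [h4, sub_self]
    rw [h5] at e3
    omega

theorem HasRk.step {A : LG} (h : HasRk A.G) : HasRk A.step.G := by
  obtain ⟨rk, hrk⟩ := h
  let rk' : A.V ⊕ A.Y → ℕ := Sum.elim (fun v => rk v + 1) (fun _ => 0)
  refine ⟨rk', ?_⟩
  rintro (v | p) (u | q) (u' | q') h1 h2 h3 h4 h5
  · exact hrk v u u' h1 h2 (Nat.le_of_succ_le_succ h3) (Nat.le_of_succ_le_succ h4)
      (fun e => h5 (by rw [e]))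
  · exact (Nat.not_succ_le_zero _ h4).elim
  · exact (Nat.not_succ_le_zero _ h3).elim
  · exact (Nat.not_succ_le_zero _ h3).elim
  · have h6 : u = p.1.1 ∨ u = p.1.2 := h1
    have h7 : u' = p.1.1 ∨ u' = p.1.2 := h2
    have h8 := p.2.1
    show A.G.Adj u u'
    rcases h6 with h6 | h6 <;> rcases h7 with h7 | h7
    · exact (h5 (by rw [h6, h7])).elim
    · rw [h6, h7]; exact h8
    · rw [h6, h7]; exact h8.symm
    · exact (h5 (by rw [h6, h7])).elim
  · exact (show False from h2).elim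
  · exact (show False from h1).elim
  · exact (show False from h1).elim

theorem HasRk.steps (n : ℕ) : ∀ {A : LG}, HasRk A.G → HasRk (LG.steps n A).G := by
  induction n with
  | zero => exact fun h => h
  | succ n ih => exact fun h => ih h.step

/-! ### Distances -/

/-- Every edge is close to more than half of the vertices `x i`. -/
def LG.Wide (A : LG) {κ : Type} [Fintype κ] (x : κ → A.V) (k : ℕ) : Prop :=
  (∀ u, ∃ v, A.G.Adj u v) ∧ ∀ u v, A.G.Adj u v → ∃ P : Finset κ, Fintype.card κ < 2 * P.card ∧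
    ∀ i ∈ P, ∃ m n, Wn A.G m u (x i) ∧ Wn A.G n v (x i) ∧ m + n + A.lev u v ≤ 2 * k

theorem LG.Wide.step {A : LG} {κ : Type} [Fintype κ] {x : κ → A.V} {k : ℕ} (h : A.Wide x k) :
    A.step.Wide (fun i => (Sum.inl (x i) : A.V ⊕ A.Y)) k := by
  obtain ⟨h1, h2⟩ := h
  have hW : ∀ {n : ℕ} {u v : A.V}, Wn A.G n u v →
      Wn A.step.G n (Sum.inl u : A.V ⊕ A.Y) (Sum.inl v : A.V ⊕ A.Y) := by
    intro n u v
    exact Wn.map (fun z : A.V => (Sum.inl z : A.V ⊕ A.Y)) fun u v huv => Or.inr huv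
  have hy1 : ∀ p : A.Y, A.step.G.Adj (Sum.inr p : A.V ⊕ A.Y) (Sum.inl p.1.1 : A.V ⊕ A.Y) :=
    fun p => Or.inl rfl
  have hy2 : ∀ p : A.Y, A.step.G.Adj (Sum.inr p : A.V ⊕ A.Y) (Sum.inl p.1.2 : A.V ⊕ A.Y) :=
    fun p => Or.inr rfl
  refine ⟨?_, ?_⟩
  · rintro (u | p)
    · obtain ⟨v, hv⟩ := h1 u
      exact ⟨Sum.inl v, hv⟩
    · exact ⟨Sum.inl p.1.1, hy1 p⟩
  · rintro (u | p) (v | q) huv
    · obtain ⟨P, hP, h3⟩ := h2 u v huv
      refine ⟨P, hP, fun i hi => ?_⟩
      obtain ⟨m, n, h4, h5, h6⟩ := h3 i hi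
      exact ⟨m, n, hW h4, hW h5, by simp only [LG.step, LG.stepLev]; omega⟩
    · obtain ⟨P, hP, h3⟩ := h2 q.1.1 q.1.2 q.2.1
      have hl := q.2.2
      have hne := q.2.1.ne
      refine ⟨P, hP, fun i hi => ?_⟩
      obtain ⟨m, n, h4, h5, h6⟩ := h3 i hi
      rcases (huv : u = q.1.1 ∨ u = q.1.2) with h | h
      · refine ⟨m, 1 + n, h ▸ hW h4, (Wn.adj (hy2 q)).trans (hW h5), ?_⟩
        simp only [LG.step, LG.stepLev, h, if_true]
        omega
      · refine ⟨n, 1 + m, h ▸ hW h5, (Wn.adj (hy1 q)).trans (hW h4), ?_⟩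
        have : ¬ u = q.1.1 := fun e => hne (by rw [← e, ← h])
        simp only [LG.step, LG.stepLev, this, if_false]
        omega
    · obtain ⟨P, hP, h3⟩ := h2 p.1.1 p.1.2 p.2.1
      have hl := p.2.2
      have hne := p.2.1.ne
      refine ⟨P, hP, fun i hi => ?_⟩
      obtain ⟨m, n, h4, h5, h6⟩ := h3 i hi
      rcases (huv : v = p.1.1 ∨ v = p.1.2) with h | h
      · refine ⟨1 + n, m, (Wn.adj (hy2 p)).trans (hW h5), h ▸ hW h4, ?_⟩
        have : ¬ v = p.1.2 := fun e => hne (by rw [← e, ← h])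
        simp only [LG.step, LG.stepLev, this, if_false]
        omega
      · refine ⟨1 + m, n, (Wn.adj (hy1 p)).trans (hW h4), h ▸ hW h5, ?_⟩
        simp only [LG.step, LG.stepLev, h, if_true]
        omega
    · exact (show False from huv).elim

theorem LG.Wide.steps {κ : Type} [Fintype κ] {k : ℕ} (n : ℕ) :
    ∀ {A : LG} {x : κ → A.V}, A.Wide x k → ∃ x' : κ → (LG.steps n A).V,
      (LG.steps n A).Wide x' k := by
  induction n with
  | zero => exact fun {A x} h => ⟨x, h⟩
  | succ n ih => exact fun h => ih h.step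

theorem LG.Wide.wn {A : LG} {κ : Type} [Fintype κ] {x : κ → A.V} {k : ℕ} (h : A.Wide x k)
    (u v : A.V) : Wn A.G (2 * k) u v := by
  classical
  have key : ∀ u, ∃ P : Finset κ, Fintype.card κ < 2 * P.card ∧ ∀ i ∈ P, Wn A.G k u (x i) := by
    intro u
    obtain ⟨v, huv⟩ := h.1 u
    obtain ⟨P, hP, h1⟩ := h.2 u v huv
    refine ⟨P, hP, fun i hi => ?_⟩
    obtain ⟨m, n, h2, h3, h4⟩ := h1 i hi
    rcases le_or_gt m k with hm | hm
    · exact h2.mono hm
    · exact ((Wn.adj huv).trans h3).mono (by omega)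
  obtain ⟨P, hP, h1⟩ := key u
  obtain ⟨Q, hQ, h2⟩ := key v
  have : (P ∩ Q).Nonempty := by
    by_contra hne
    rw [Finset.not_nonempty_iff_eq_empty] at hne
    have h3 := Finset.card_union_add_card_inter P Q
    have h4 := Finset.card_le_univ (P ∪ Q)
    rw [hne, Finset.card_empty] at h3
    omega
  obtain ⟨i, hi⟩ := this
  rw [Finset.mem_inter] at hi
  exact ((h1 i hi.1).trans (h2 i hi.2).symm).mono (by omega)

theorem LG.Wide.connected {A : LG} {κ : Type} [Fintype κ] {x : κ → A.V} {k : ℕ}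
    (h : A.Wide x k) (hne : Nonempty A.V) : A.G.Connected :=
  ⟨fun u v => (h.wn u v).reachable⟩

/-! ### Levels -/

theorem LG.steps_lev_eq_zero (n : ℕ) : ∀ {A : LG}, (∀ u v, A.lev u v ≤ n) →
    ∀ u v, (LG.steps n A).lev u v = 0 := by
  induction n with
  | zero => exact fun h u v => Nat.le_zero.1 (h u v)
  | succ n ih =>
    intro A h
    refine ih ?_
    rintro (u | p) (v | q)
    · exact Nat.zero_le _
    · show (if u = q.1.1 then A.lev q.1.1 q.1.2 - 1 else 0) ≤ n
      split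
      · have := h q.1.1 q.1.2
        omega
      · exact Nat.zero_le _
    · show (if v = p.1.2 then A.lev p.1.1 p.1.2 - 1 else 0) ≤ n
      split
      · have := h p.1.1 p.1.2
        omega
      · exact Nat.zero_le _
    · exact Nat.zero_le _

theorem LG.has_iff {A : LG} {t : ℕ} (hc : A.G.Connected) (h0 : ∀ u v, A.lev u v = 0) :
    A.Has t ↔ ∃ T, IsTreeSpanner t A.G T := by
  constructor
  · rintro ⟨T, h1, h2, h3⟩
    refine ⟨T, h1, h2, ?_⟩
    have key : ∀ {x y : A.V} (W : A.G.Walk x y), T.dist x y ≤ t * W.length := by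
      intro x y W
      induction W with
      | nil => simp
      | @cons u v w huv W ih =>
        rw [Walk.length_cons]
        have h4 := h3 u v huv
        rw [h0] at h4
        have h5 : T.dist u w ≤ T.dist u v + T.dist v w := h2.connected.dist_triangle
        calc T.dist u w ≤ t + t * W.length := by omega
          _ = t * (W.length + 1) := by ring
    intro x y
    obtain ⟨W, hW⟩ := hc.exists_walk_length_eq_dist x y
    rw [← hW]
    exact key W
  · rintro ⟨T, h1, h2, h3⟩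
    refine ⟨T, h1, h2, fun u v huv => ?_⟩
    have h4 := h3 u v
    rw [dist_eq_one_iff_adj.2 huv, mul_one] at h4
    rw [h0]
    exact h4

/-! ### Number of vertices -/

theorem LG.card_step_Y (A : LG) : Fintype.card A.step.Y ≤ 2 * Fintype.card A.Y := by
  classical
  have hcard : Fintype.card (A.Y × Bool) = 2 * Fintype.card A.Y := by
    rw [Fintype.card_prod, Fintype.card_bool, mul_comm]
  rw [← hcard]
  let f : A.step.Y → A.Y × Bool := fun e =>
    match e with
    | ⟨(.inl _, .inl _), h⟩ => ((lt_irrefl 0 h.2).elim : A.Y × Bool)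
    | ⟨(.inl _, .inr p), _⟩ => (p, false)
    | ⟨(.inr p, .inl _), _⟩ => (p, true)
    | ⟨(.inr _, .inr _), h⟩ => ((lt_irrefl 0 h.2).elim : A.Y × Bool)
  refine Fintype.card_le_of_injective f ?_
  rintro ⟨⟨u | p, v | q⟩, h⟩ ⟨⟨u' | p', v' | q'⟩, h'⟩ hf
  · exact (lt_irrefl 0 h.2).elim
  · exact (lt_irrefl 0 h.2).elim
  · exact (lt_irrefl 0 h.2).elim
  · exact (lt_irrefl 0 h.2).elim
  · exact (lt_irrefl 0 h'.2).elim
  · have hq : q = q' := congrArg Prod.fst hf
    subst hq
    have h1 : 0 < (if u = q.1.1 then A.lev q.1.1 q.1.2 - 1 else 0) := h.2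
    have h2 : 0 < (if u' = q.1.1 then A.lev q.1.1 q.1.2 - 1 else 0) := h'.2
    have h3 : u = q.1.1 := by
      by_contra hn
      rw [if_neg hn] at h1
      exact lt_irrefl 0 h1
    have h4 : u' = q.1.1 := by
      by_contra hn
      rw [if_neg hn] at h2
      exact lt_irrefl 0 h2
    subst h3
    subst h4
    rfl
  · exact (Bool.false_ne_true (congrArg Prod.snd hf)).elim
  · exact (lt_irrefl 0 h'.2).elim
  · exact (lt_irrefl 0 h'.2).elim
  · exact (Bool.false_ne_true (congrArg Prod.snd hf).symm).elim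
  · have hq : p = p' := congrArg Prod.fst hf
    subst hq
    have h1 : 0 < (if v = p.1.2 then A.lev p.1.1 p.1.2 - 1 else 0) := h.2
    have h2 : 0 < (if v' = p.1.2 then A.lev p.1.1 p.1.2 - 1 else 0) := h'.2
    have h3 : v = p.1.2 := by
      by_contra hn
      rw [if_neg hn] at h1
      exact lt_irrefl 0 h1
    have h4 : v' = p.1.2 := by
      by_contra hn
      rw [if_neg hn] at h2
      exact lt_irrefl 0 h2
    subst h3
    subst h4
    rfl
  · exact (lt_irrefl 0 h'.2).elim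
  · exact (lt_irrefl 0 h.2).elim
  · exact (lt_irrefl 0 h.2).elim
  · exact (lt_irrefl 0 h.2).elim
  · exact (lt_irrefl 0 h.2).elim

theorem LG.card_steps (n : ℕ) : ∀ A : LG,
    Fintype.card (LG.steps n A).V + Fintype.card A.Y ≤ Fintype.card A.V +
      2 ^ n * Fintype.card A.Y := by
  induction n with
  | zero => intro A; simp [LG.steps]; rfl
  | succ n ih =>
    intro A
    have h1 := ih A.step
    have h2 := A.card_step_Y
    have h3 : Fintype.card A.step.V = Fintype.card A.V + Fintype.card A.Y := by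
      have : Fintype.card (A.V ⊕ A.Y) = Fintype.card A.V + Fintype.card A.Y := Fintype.card_sum
      rw [← this]
      rfl
    have h4 : 1 ≤ 2 ^ n := Nat.one_le_two_pow
    have h5 : 2 ^ n * Fintype.card A.step.Y ≤ 2 ^ n * (2 * Fintype.card A.Y) :=
      Nat.mul_le_mul_left _ h2
    have h6 : 2 ^ (n + 1) * Fintype.card A.Y = 2 ^ n * (2 * Fintype.card A.Y) := by ring
    show Fintype.card (LG.steps n A.step).V + _ ≤ _
    rw [h6]
    obtain ⟨c, hc⟩ : ∃ c, 2 ^ n = c + 1 := ⟨2 ^ n - 1, by omega⟩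
    rw [hc] at h1 h5 ⊢
    have h7 : c * Fintype.card A.step.Y ≤ c * (2 * Fintype.card A.Y) := Nat.mul_le_mul_left _ h2
    have h8 : (c + 1) * Fintype.card A.step.Y = c * Fintype.card A.step.Y +
      Fintype.card A.step.Y := by ring
    have h9 : (c + 1) * (2 * Fintype.card A.Y) = c * (2 * Fintype.card A.Y) +
      2 * Fintype.card A.Y := by ring
    omega

theorem LG.card_steps_le (n : ℕ) (A : LG) :
    Fintype.card (LG.steps n A).V ≤ 2 ^ (n + 1) * Fintype.card A.V ^ 2 := by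
  classical
  have h1 := LG.card_steps n A
  have h2 : Fintype.card A.Y ≤ Fintype.card A.V ^ 2 := by
    have := Fintype.card_subtype_le (fun p : A.V × A.V => A.G.Adj p.1 p.2 ∧ 0 < A.lev p.1 p.2)
    rw [Fintype.card_prod] at this
    rw [sq]
    exact this
  have h3 : Fintype.card A.V ≤ Fintype.card A.V ^ 2 := Nat.le_self_pow (by norm_num) _
  have h4 : 1 ≤ 2 ^ n := Nat.one_le_two_pow
  have h5 : 2 ^ n * Fintype.card A.Y ≤ 2 ^ n * Fintype.card A.V ^ 2 := Nat.mul_le_mul_left _ h2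
  have h6 : Fintype.card A.V ^ 2 ≤ 2 ^ n * Fintype.card A.V ^ 2 :=
    Nat.le_mul_of_pos_left _ (by omega)
  calc Fintype.card (LG.steps n A).V ≤ Fintype.card A.V + 2 ^ n * Fintype.card A.Y := by omega
    _ ≤ 2 ^ n * Fintype.card A.V ^ 2 + 2 ^ n * Fintype.card A.V ^ 2 := by omega
    _ = 2 ^ (n + 1) * Fintype.card A.V ^ 2 := by ring

end Pool.Agent.TSpan33
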