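import Pool.Agent.TSpan33.Cores
import Pool.Agent.TSpan33.Inv

/-!
# Soundness of the core for even `t`
-/

set_option autoImplicit false
set_option linter.unusedSectionVars false

namespace Pool.Agent.TSpan33

open SimpleGraph

variable {ι J : Type} [Fintype ι] [Fintype J] [DecidableEq ι] [DecidableEq J]

/-- Adjacency in terms of the table of bounds. -/
def AdjOf {V : Type} (bd : V → V → ℕ) (u v : V) : Prop := u ≠ v ∧ (bd u v ≠ 0 ∨ bd v u ≠ 0)

/-- `Has` for `ofBounds` in plain terms. -/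
theorem has_ofBounds {V : Type} [Fintype V] [DecidableEq V] {bd : V → V → ℕ} {t : ℕ}
    (hbt : ∀ u v, bd u v ≤ t) (h : (LG.ofBounds t V bd).Has t) :
    ∃ T : SimpleGraph V, (∀ u v, T.Adj u v → AdjOf bd u v) ∧ T.IsTree ∧
      ∀ u v, u ≠ v → bd u v ≠ 0 → T.dist u v ≤ bd u v := by
  obtain ⟨T, h1, h2, h3⟩ := h
  have key : ∀ T' : SimpleGraph V,
      (∀ u v, AdjOf bd u v → T'.dist u v + (if bd u v = 0 then 0 else t - bd u v) ≤ t) →
      ∀ u v, u ≠ v → bd u v ≠ 0 → T'.dist u v ≤ bd u v := by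
    intro T' h3 u v hne hb
    have h4 := h3 u v ⟨hne, Or.inl hb⟩
    rw [if_neg hb] at h4
    have := hbt u v
    omega
  exact ⟨T, fun u v huv => h1 huv, h2, key T h3⟩

theorem bdA_le {t : ℕ} (ht : 4 ≤ t) (col : J → Bool) (sc : J → Finset ι) (u v : VA ι J) :
    bdA col sc u v ≤ t := by
  rcases u with _ | _ | _ | _ | _ <;> rcases v with _ | _ | _ | _ | _ <;>
    simp only [bdA] <;> (try split_ifs) <;> omega

theorem adjA_g {col : J → Bool} {sc : J → Finset ι} {j : J} {y : VA ι J}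
    (h : AdjOf (bdA col sc) (.g j) y) : y = .b j ∨ ∃ i ∈ sc j, y = .w i := by
  rcases y with _ | _ | _ | _ | _ <;> simp_all [AdjOf, bdA]

theorem adjA_ax {col : J → Bool} {sc : J → Finset ι} {j : J} :
    ¬ AdjOf (bdA col sc) (.a j) (.x (rtA (col j))) := by
  rcases h : col j <;> simp [AdjOf, bdA, rtA, h]

theorem adjA_bx {col : J → Bool} {sc : J → Finset ι} {j : J} {k : Fin 3} :
    ¬ AdjOf (bdA col sc) (.b j) (.x k) := by
  simp [AdjOf, bdA]

theorem adjA_gx {col : J → Bool} {sc : J → Finset ι} {j : J} {k : Fin 3} :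
    ¬ AdjOf (bdA col sc) (.g j) (.x k) := by
  simp [AdjOf, bdA]

theorem coreA_sound {t : ℕ} (ht : 4 ≤ t) {col : J → Bool} {sc : J → Finset ι}
    (hsc : ∀ j, (sc j).Nonempty) (h : (coreA t col sc).Has t) :
    ∃ f : ι → Bool, ∀ j, ∃ i ∈ sc j, f i ≠ col j := by
  classical
  obtain ⟨T, hle, hT, hb⟩ := has_ofBounds (bdA_le ht col sc) h
  have hc := hT.connected
  have h01 : T.Adj (.x 0) (.x 1) := adj_of_le_one hc (by simp) (by
    simpa [bdA] using hb (.x 0) (.x 1) (by simp) (by simp [bdA]))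
  have hw0 : ∀ i, T.dist (.w i) (.x 0) ≤ 2 := fun i => by
    simpa [bdA] using hb (.w i) (.x 0) (by simp) (by simp [bdA])
  have hw1 : ∀ i, T.dist (.w i) (.x 1) ≤ 2 := fun i => by
    simpa [bdA] using hb (.w i) (.x 1) (by simp) (by simp [bdA])
  have hadj : ∀ i, ¬ T.Adj (.w i) (.x 1) → T.Adj (.w i) (.x 0) := by
    intro i hi
    have h1 : T.dist (.w i) (.x 1) ≠ 1 := fun e => hi (dist_eq_one_iff_adj.1 e)
    have h2 := hc.pos_dist_of_ne (show VA.w i ≠ (.x 1 : VA ι J) by simp)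
    have h3 := hc.pos_dist_of_ne (show VA.w i ≠ (.x 0 : VA ι J) by simp)
    have h4 := hw0 i
    have h5 := hw1 i
    apply adj_of_le_one hc (by simp)
    rcases hT.dist_eq_dist_add_one_of_adj (.w i) h01 with h6 | h6 <;> omega
  refine ⟨fun i => decide (T.Adj (.w i) (.x 1)), fun j => ?_⟩
  by_contra hcon
  push Not at hcon
  -- the two roots
  have hsr : T.Adj (.x (rtA (col j))) (.x (rtA (!col j))) := by
    cases hcj : col j
    · simpa [rtA] using h01
    · simpa [rtA] using h01.symm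
  have hws : ∀ i ∈ sc j, T.Adj (.w i) (.x (rtA (col j))) := by
    intro i hi
    have h1 := hcon i hi
    cases hcj : col j
    · rw [hcj] at h1
      have h2 : ¬ T.Adj (.w i) (.x 1) := by simpa using h1
      simpa [rtA] using hadj i h2
    · rw [hcj] at h1
      simpa [rtA] using h1
  have hwd : ∀ i ∈ sc j, T.dist (.w i) (.x (rtA (!col j))) = 2 := by
    intro i hi
    have h1 := dist_eq_one_iff_adj.2 (hws i hi)
    have h2 := hc.pos_dist_of_ne (show VA.w i ≠ (.x (rtA (!col j)) : VA ι J) by simp)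
    rcases hT.dist_eq_dist_add_one_of_adj (.w i) hsr with h6 | h6 <;> omega
  obtain ⟨i, hi⟩ := hsc j
  have hax : T.dist (.a j) (.x (rtA (!col j))) ≤ 2 := by
    have h1 : bdA col sc (.a j) (.x (rtA (!col j))) = 2 := by
      rcases hcj : col j <;> simp [bdA, rtA, hcj]
    have := hb (.a j) (.x (rtA (!col j))) (by simp) (by rw [h1]; norm_num)
    rwa [h1] at this
  have has2 : 2 ≤ T.dist (.a j) (.x (rtA (col j))) :=
    two_le hc (by simp) fun h => adjA_ax (hle _ _ h)
  refine gadget hT hsr (w := .w i) (a := .a j) (b := .b j) (g := .g j) (δ := 1)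
    (dist_eq_one_iff_adj.2 (hws i hi)) ?_ ?_ (by simp) ?_ ?_ ?_ ?_ ?_ ?_ ?_
  · rw [hwd i hi, dist_eq_one_iff_adj.2 (hws i hi)]
    norm_num
  · rcases hT.dist_eq_dist_add_one_of_adj (.a j) hsr with h6 | h6 <;> omega
  · simpa [bdA] using hb (.b j) (.a j) (by simp) (by simp [bdA])
  · simpa [bdA] using hb (.g j) (.b j) (by simp) (by simp [bdA])
  · simpa [bdA, hi] using hb (.g j) (.w i) (by simp) (by simp [bdA, hi])
  · exact two_le hc (by simp) fun h => adjA_bx (hle _ _ h)
  · exact two_le hc (by simp) fun h => adjA_gx (hle _ _ h)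
  · exact two_le hc (by simp) fun h => adjA_bx (hle _ _ h)
  · refine three_le hc (by simp) (fun h => adjA_gx (hle _ _ h)) ?_
    intro y h1 h2
    rcases adjA_g (hle _ _ h1) with rfl | ⟨i', hi', rfl⟩
    · exact adjA_bx (hle _ _ h2)
    · have h3 := hwd i' hi'
      rw [dist_eq_one_iff_adj.2 h2] at h3
      omega

end Pool.Agent.TSpan33
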