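import Pool.Agent.TSpan33.SoundA

/-!
# Soundness of the core for odd `t`
-/

set_option autoImplicit false
set_option linter.unusedSectionVars false

namespace Pool.Agent.TSpan33

open SimpleGraph

variable {ι J : Type} [Fintype ι] [Fintype J] [DecidableEq ι] [DecidableEq J]

theorem bdB_le {t : ℕ} (ht : 5 ≤ t) (col : J → Fin 4) (sc : J → Finset ι) (u v : VB ι J) :
    bdB col sc u v ≤ t := by
  rcases u with _ | _ | _ | _ | _ <;> rcases v with _ | _ | _ | _ | _ <;>
    simp only [bdB] <;> (try split_ifs) <;> omega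

/-- The copy of a vertex outside the clique. -/
def cp : VB ι J → Option (Fin 5)
  | .x _ => none
  | .w c _ => some c
  | .a c _ => some c
  | .b c _ => some c
  | .g c _ => some c

theorem cp_eq_none {v : VB ι J} (h : cp v = none) : ∃ k, v = .x k := by
  rcases v with k | _ | _ | _ | _
  · exact ⟨k, rfl⟩
  all_goals simp [cp] at h

theorem adjB_cp {col : J → Fin 4} {sc : J → Finset ι} {v : VB ι J} {c : Fin 5}
    (h : cp v = some c) : ¬ AdjOf (bdB col sc) v (.x c) := by
  rcases v with _ | _ | _ | _ | _ <;> simp_all [AdjOf, bdB, cp]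

theorem adjB_same {col : J → Fin 4} {sc : J → Finset ι} {v v' : VB ι J} {c c' : Fin 5}
    (h : cp v = some c) (h' : cp v' = some c') (hadj : AdjOf (bdB col sc) v v') : c = c' := by
  rcases v with _ | _ | _ | _ | _ <;> rcases v' with _ | _ | _ | _ | _ <;>
    simp_all [AdjOf, bdB, cp] <;>
    grind

theorem adjB_a {col : J → Fin 4} {sc : J → Finset ι} {c k : Fin 5} {j : J}
    (h : AdjOf (bdB col sc) (.a c j) (.x k)) : k ≠ c ∧ k ≠ rtB c (col j) := by
  simp_all [AdjOf, bdB]

theorem adjB_bx {col : J → Fin 4} {sc : J → Finset ι} {c k : Fin 5} {j : J} :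
    ¬ AdjOf (bdB col sc) (.b c j) (.x k) := by
  simp [AdjOf, bdB]

theorem adjB_gx {col : J → Fin 4} {sc : J → Finset ι} {c k : Fin 5} {j : J} :
    ¬ AdjOf (bdB col sc) (.g c j) (.x k) := by
  simp [AdjOf, bdB]

theorem adjB_g {col : J → Fin 4} {sc : J → Finset ι} {c : Fin 5} {j : J} {y : VB ι J}
    (h : AdjOf (bdB col sc) (.g c j) y) : y = .b c j ∨ ∃ i ∈ sc j, y = .w c i := by
  rcases y with _ | _ | _ | _ | _ <;> simp_all [AdjOf, bdB]

theorem exists_mid3 {V : Type*} {T : SimpleGraph V} (hc : T.Connected) {u v : V}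
    (h : T.dist u v = 3) : ∃ p q, T.Adj u p ∧ T.Adj p q ∧ T.Adj q v := by
  obtain ⟨P, hP⟩ := hc.exists_walk_length_eq_dist u v
  rw [h] at hP
  match P, hP with
  | Walk.cons h1 (Walk.cons h2 (Walk.cons h3 Walk.nil)), _ => exact ⟨_, _, h1, h2, h3⟩

section Star

variable {col : J → Fin 4} {sc : J → Finset ι} {T : SimpleGraph (VB ι J)}

theorem star_ii (hcol : ∀ d, ∃ j, col j = d)
    (hle : ∀ u v, T.Adj u v → AdjOf (bdB col sc) u v) (hT : T.IsTree)
    (ha : ∀ c j k, k ≠ c → k ≠ rtB c (col j) → T.dist (.a c j) (.x k) ≤ 3)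
    {k l β c0 : Fin 5} {p : VB ι J} (hp : cp p = some c0)
    (hkp : T.Adj (.x k) p) (hpq : T.Adj p (.x β)) (hql : T.Adj (.x β) (.x l))
    (hkq : T.dist (.x k) (.x β) = 2) (hlp : T.dist (.x l) p = 2) : False := by
  have hc := hT.connected
  have hlβ : l ≠ β := fun e => hql.ne (by rw [e])
  have hkβ : k ≠ β := by
    rintro rfl
    rw [SimpleGraph.dist_self] at hkq
    omega
  have hρ : ∀ k l β : Fin 5, ∃ ρ : Fin 5, ρ ≠ β ∧ ρ ≠ k ∧ ρ ≠ l := by decide
  obtain ⟨ρ, hρβ, hρk, hρl⟩ := hρ k l β
  have hd : ∀ c k : Fin 5, k ≠ c → ∃ d : Fin 4, rtB c d = k := by decide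
  obtain ⟨d, hd⟩ := hd β ρ hρβ
  obtain ⟨j, hj⟩ := hcol d
  have h1 : T.dist (.a β j) (.x k) ≤ 3 := ha β j k hkβ (by rw [hj, hd]; exact hρk.symm)
  have h2 : T.dist (.a β j) (.x l) ≤ 3 := ha β j l hlβ (by rw [hj, hd]; exact hρl.symm)
  have hxk : T.dist (.x k) p = 1 := dist_eq_one_iff_adj.2 hkp
  have hxl : T.dist (.x l) (.x β) = 1 := dist_eq_one_iff_adj.2 hql.symm
  have hna : ¬ T.Adj (.a β j) (.x β) := fun h => adjB_cp (v := .a β j) rfl (hle _ _ h)
  rcases hT.dist_eq_dist_add_one_of_adj (.a β j) hpq with h | h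
  · -- on the side of `x β`
    have h3 := dist_cross hT hpq.symm (u := .a β j) (v := .x k) (by omega) (by omega)
    rw [T.dist_comm (u := p), hxk] at h3
    exact hna (adj_of_le_one hc (by simp) (by omega))
  · have h3 := dist_cross hT hpq (u := .a β j) (v := .x l) (by omega) (by omega)
    rw [T.dist_comm (u := .x β), hxl] at h3
    by_cases he : VB.a β j = p
    · rw [← he] at hpq
      exact hna hpq
    · have h4 := adj_of_le_one hc he (by omega)
      have h5 : β = c0 := adjB_same rfl hp (hle _ _ h4)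
      rw [← h5] at hp
      exact adjB_cp hp (hle _ _ hpq)

theorem star (hcol : ∀ d, ∃ j, col j = d)
    (hle : ∀ u v, T.Adj u v → AdjOf (bdB col sc) u v) (hT : T.IsTree)
    (hx : ∀ k l, k ≠ l → T.dist (.x k) (.x l) ≤ 3)
    (ha : ∀ c j k, k ≠ c → k ≠ rtB c (col j) → T.dist (.a c j) (.x k) ≤ 3) :
    ∃ c, ∀ k, k ≠ c → T.Adj (.x c) (.x k) := by
  classical
  have hc := hT.connected
  by_cases h3 : ∃ k l, T.dist (.x k) (.x l) = 3
  · exfalso
    obtain ⟨k, l, hkl⟩ := h3
    obtain ⟨p, q, hkp, hpq, hql⟩ := exists_mid3 hc hkl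
    have hxk : T.dist (.x k) p = 1 := dist_eq_one_iff_adj.2 hkp
    have hxl : T.dist (.x l) q = 1 := dist_eq_one_iff_adj.2 hql.symm
    have hkq : T.dist (.x k) q = 2 := by
      have h1 : T.dist (.x k) (.x l) ≤ T.dist (.x k) q + T.dist q (.x l) := hc.dist_triangle
      rw [T.dist_comm (u := q), hxl, hkl] at h1
      rcases hT.dist_eq_dist_add_one_of_adj (.x k) hpq with h | h <;> omega
    have hlp : T.dist (.x l) p = 2 := by
      have h1 : T.dist (.x l) (.x k) ≤ T.dist (.x l) p + T.dist p (.x k) := hc.dist_triangle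
      rw [T.dist_comm (u := p), hxk, T.dist_comm (u := .x l) (v := .x k), hkl] at h1
      rcases hT.dist_eq_dist_add_one_of_adj (.x l) hpq with h | h <;> omega
    rcases hp : cp p with _ | c0
    · obtain ⟨α, rfl⟩ := cp_eq_none hp
      rcases hq : cp q with _ | c1
      · obtain ⟨β, rfl⟩ := cp_eq_none hq
        have hβα : β ≠ α := fun e => hpq.ne (by rw [e])
        have hkα : k ≠ α := fun e => hkp.ne (by rw [e])
        have hlβ : l ≠ β := fun e => hql.ne (by rw [e])
        have hkβ : k ≠ β := by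
          rintro rfl
          rw [SimpleGraph.dist_self] at hkq
          omega
        have hlα : l ≠ α := by
          rintro rfl
          rw [SimpleGraph.dist_self] at hlp
          omega
        have hd : ∀ c k : Fin 5, k ≠ c → ∃ d : Fin 4, rtB c d = k := by decide
        obtain ⟨d, hd⟩ := hd α β hβα
        obtain ⟨j, hj⟩ := hcol d
        have hr : rtB α (col j) = β := by rw [hj, hd]
        have h1 : T.dist (.a α j) (.x k) ≤ 3 := ha α j k hkα (by rw [hr]; exact hkβ)
        have h2 : T.dist (.a α j) (.x l) ≤ 3 := ha α j l hlα (by rw [hr]; exact hlβ)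
        rcases hT.dist_eq_dist_add_one_of_adj (.a α j) hpq with h | h
        · have h3 := dist_cross hT hpq.symm (u := .a α j) (v := .x k) (by omega) (by omega)
          rw [T.dist_comm (u := .x α), hxk] at h3
          have h4 := adj_of_le_one hc (show VB.a α j ≠ .x β by simp) (by omega)
          exact (adjB_a (hle _ _ h4)).2 hr.symm
        · have h3 := dist_cross hT hpq (u := .a α j) (v := .x l) (by omega) (by omega)
          rw [T.dist_comm (u := .x β), hxl] at h3
          have h4 := adj_of_le_one hc (show VB.a α j ≠ .x α by simp) (by omega)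
          exact (adjB_a (hle _ _ h4)).1 rfl
      · exact star_ii hcol hle hT ha hq hql.symm hpq.symm hkp.symm hlp hkq
    · rcases hq : cp q with _ | c1
      · obtain ⟨β, rfl⟩ := cp_eq_none hq
        exact star_ii hcol hle hT ha hp hkp hpq hql hkq hlp
      · have h1 : c0 = c1 := adjB_same hp hq (hle _ _ hpq)
        subst h1
        have hpx : p ≠ .x c0 := by
          rintro rfl
          simp [cp] at hp
        have hqx : q ≠ .x c0 := by
          rintro rfl
          simp [cp] at hq
        have hnp : ¬ T.Adj p (.x c0) := fun h => adjB_cp hp (hle _ _ h)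
        have hnq : ¬ T.Adj q (.x c0) := fun h => adjB_cp hq (hle _ _ h)
        have hk0 : c0 ≠ k := by
          rintro rfl
          exact hnp hkp.symm
        have hl0 : c0 ≠ l := by
          rintro rfl
          exact hnq hql
        rcases hT.dist_eq_dist_add_one_of_adj (.x c0) hpq with h | h
        · have h2 := dist_cross hT hpq.symm (u := .x c0) (v := .x k) (by omega) (by omega)
          rw [T.dist_comm (u := p), hxk] at h2
          have h3 := hx c0 k hk0
          exact hnq (adj_of_le_one hc hqx.symm (by omega)).symm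
        · have h2 := dist_cross hT hpq (u := .x c0) (v := .x l) (by omega) (by omega)
          rw [T.dist_comm (u := q), hxl] at h2
          have h3 := hx c0 l hl0
          exact hnp (adj_of_le_one hc hpx.symm (by omega)).symm
  · push Not at h3
    have hx2 : ∀ k l, k ≠ l → T.dist (.x k) (.x l) ≤ 2 := by
      intro k l hkl
      have h1 := hx k l hkl
      have h2 := h3 k l
      omega
    by_cases h2 : ∃ k l, T.dist (.x k) (.x l) = 2
    · obtain ⟨k, l, hkl⟩ := h2
      obtain ⟨p, hkp, hpl⟩ := exists_mid hc hkl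
      have hxk : T.dist (.x k) p = 1 := dist_eq_one_iff_adj.2 hkp
      have hxl : T.dist (.x l) p = 1 := dist_eq_one_iff_adj.2 hpl.symm
      have hall : ∀ m, T.dist (.x m) p ≤ 1 := by
        intro m
        by_cases hmk : m = k
        · rw [hmk]; omega
        by_cases hml : m = l
        · rw [hml]; omega
        have h4 := hx2 m k hmk
        rcases hT.dist_eq_dist_add_one_of_adj (.x m) hkp with h | h
        · omega
        · have h5 := hx2 m l hml
          have h6 := dist_cross hT hkp (u := .x m) (v := .x l) (by omega) (by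
            rw [T.dist_comm (u := .x l) (v := .x k)]
            omega)
          rw [T.dist_comm (u := p), hxl] at h6
          have h7 := hc.pos_dist_of_ne (show (VB.x m : VB ι J) ≠ .x k by simpa using hmk)
          omega
      rcases hp : cp p with _ | c0
      · obtain ⟨c, rfl⟩ := cp_eq_none hp
        refine ⟨c, fun m hm => ?_⟩
        exact (adj_of_le_one hc (by simpa using hm) (hall m)).symm
      · exfalso
        have hpx : p ≠ .x c0 := by
          rintro rfl
          simp [cp] at hp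
        exact adjB_cp hp (hle _ _ (adj_of_le_one hc hpx.symm (hall c0)).symm)
    · exfalso
      push Not at h2
      have hx1 : ∀ k l, k ≠ l → T.dist (.x k) (.x l) = 1 := by
        intro k l hkl
        have h1 := hx2 k l hkl
        have h4 := h2 k l
        have h5 := hc.pos_dist_of_ne (show (VB.x k : VB ι J) ≠ .x l by simpa using hkl)
        omega
      have h4 := hx1 0 1 (by decide)
      have h5 := hx1 2 0 (by decide)
      have h6 := hx1 2 1 (by decide)
      rcases hT.dist_eq_dist_add_one_of_adj (.x 2) (dist_eq_one_iff_adj.1 h4) with h | h <;> omega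

end Star

theorem coreB_sound {t : ℕ} (ht : 5 ≤ t) {col : J → Fin 4} {sc : J → Finset ι}
    (hsc : ∀ j, (sc j).Nonempty) (hcol : ∀ d, ∃ j, col j = d) (h : (coreB t col sc).Has t) :
    ∃ f : ι → Fin 4, ∀ j, ∃ i ∈ sc j, f i ≠ col j := by
  classical
  obtain ⟨T, hle, hT, hb⟩ := has_ofBounds (bdB_le ht col sc) h
  have hc := hT.connected
  have hx : ∀ k l, k ≠ l → T.dist (.x k) (.x l) ≤ 3 := by
    intro k l hkl
    rcases lt_or_gt_of_ne hkl with h | h
    · simpa [bdB, h] using hb (.x k) (.x l) (by simpa using hkl) (by simp [bdB, h])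
    · rw [T.dist_comm]
      simpa [bdB, h] using hb (.x l) (.x k) (by simpa using hkl.symm) (by simp [bdB, h])
  have ha : ∀ c j k, k ≠ c → k ≠ rtB c (col j) → T.dist (.a c j) (.x k) ≤ 3 := by
    intro c j k h1 h2
    simpa [bdB, h1, h2] using hb (.a c j) (.x k) (by simp) (by simp [bdB, h1, h2])
  obtain ⟨c, hstar⟩ := star hcol hle hT hx ha
  have hw : ∀ i k, k ≠ c → T.dist (.w c i) (.x k) ≤ 3 := by
    intro i k h1
    simpa [bdB, h1] using hb (.w c i) (.x k) (by simp) (by simp [bdB, h1])
  have hd : ∀ c k : Fin 5, k ≠ c → ∃ d : Fin 4, rtB c d = k := by decide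
  have hrt : ∀ (c : Fin 5) (d : Fin 4), rtB c d ≠ c := by decide
  have hthird : ∀ c k : Fin 5, ∃ l : Fin 5, l ≠ c ∧ l ≠ k := by decide
  -- two leaves of the star
  have hleaf : ∀ k l, k ≠ c → l ≠ c → k ≠ l → T.dist (.x k) (.x c) < T.dist (.x k) (.x l) := by
    intro k l hk hl hkl
    have h1 : T.dist (.x k) (.x c) = 1 := dist_eq_one_iff_adj.2 (hstar k hk).symm
    have h2 := hc.pos_dist_of_ne (show (VB.x k : VB ι J) ≠ .x l by simpa using hkl)
    rcases hT.dist_eq_dist_add_one_of_adj (.x k) (hstar l hl) with h | h <;> omega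
  -- a vertex of the copy `c` on the side of a leaf
  have hmidc : ∀ v : VB ι J, cp v = some c → T.dist v (.x c) ≤ 2 →
      ∃ k, k ≠ c ∧ T.Adj v (.x k) := by
    intro v hv hvd
    have hvx : v ≠ .x c := by
      rintro rfl
      simp [cp] at hv
    have h1 := two_le hc hvx fun h => adjB_cp hv (hle _ _ h)
    obtain ⟨y, h2, h3⟩ := exists_mid hc (show T.dist v (.x c) = 2 by omega)
    rcases hy : cp y with _ | c0
    · obtain ⟨k, rfl⟩ := cp_eq_none hy
      exact ⟨k, fun e => h3.ne (by rw [e]), h2⟩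
    · exfalso
      have h4 : c = c0 := adjB_same hv hy (hle _ _ h2)
      rw [← h4] at hy
      exact adjB_cp hy (hle _ _ h3)
  have hwadj : ∀ i, ∃ d : Fin 4, T.Adj (.w c i) (.x (rtB c d)) := by
    intro i
    suffices hk : ∃ k, k ≠ c ∧ T.Adj (.w c i) (.x k) by
      obtain ⟨k, hk, hadj⟩ := hk
      obtain ⟨d, rfl⟩ := hd c k hk
      exact ⟨d, hadj⟩
    by_cases hside : ∃ k, k ≠ c ∧ T.dist (.w c i) (.x k) < T.dist (.w c i) (.x c)
    · obtain ⟨k, hk, hlt⟩ := hside
      obtain ⟨l, hlc, hlk⟩ := hthird c k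
      refine ⟨k, hk, ?_⟩
      have h1 := dist_cross hT (hstar k hk).symm hlt (hleaf l k hlc hk hlk)
      rw [dist_eq_one_iff_adj.2 (hstar l hlc)] at h1
      have h2 := hw i l hlc
      exact adj_of_le_one hc (by simp) (by omega)
    · push Not at hside
      obtain ⟨k, hk, -⟩ := hthird c c
      have h1 := hside k hk
      have h2 := hw i k hk
      apply hmidc _ rfl
      rcases hT.dist_eq_dist_add_one_of_adj (.w c i) (hstar k hk) with h | h <;> omega
  choose f hf using hwadj
  refine ⟨f, fun j => ?_⟩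
  by_contra hcon
  push Not at hcon
  obtain ⟨i, hi⟩ := hsc j
  -- the root of `a c j`
  obtain ⟨k, hkc, hkr, hka⟩ : ∃ k, k ≠ c ∧ k ≠ rtB c (col j) ∧
      T.dist (.a c j) (.x k) < T.dist (.a c j) (.x c) := by
    by_contra hno
    push Not at hno
    have hsome : ∀ c k : Fin 5, ∃ l : Fin 5, l ≠ c ∧ l ≠ k := by decide
    obtain ⟨l, hl1, hl2⟩ := hsome c (rtB c (col j))
    have h1 := hno l hl1 hl2
    have h2 := ha c j l hl1 hl2
    have h3 : T.dist (.a c j) (.x c) ≤ 2 := by
      rcases hT.dist_eq_dist_add_one_of_adj (.a c j) (hstar l hl1) with h | h <;> omega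
    obtain ⟨k, hk, hadj⟩ := hmidc (.a c j) rfl h3
    have h4 := hno k hk (adjB_a (hle _ _ hadj)).2
    rw [dist_eq_one_iff_adj.2 hadj] at h4
    have h5 := two_le hc (show VB.a c j ≠ .x c by simp)
      (fun h => adjB_cp (v := .a c j) rfl (hle _ _ h))
    omega
  have hwr : ∀ i ∈ sc j, T.dist (.w c i) (.x c) = 2 ∧ T.dist (.w c i) (.x k) = 3 := by
    intro i hi
    have h1 := hf i
    rw [hcon i hi] at h1
    have h2 : T.dist (.w c i) (.x (rtB c (col j))) = 1 := dist_eq_one_iff_adj.2 h1
    have h3 := two_le hc (show VB.w c i ≠ .x c by simp)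
      (fun h => adjB_cp (v := .w c i) rfl (hle _ _ h))
    have hst := hstar _ (hrt c (col j))
    have h4 : T.dist (.w c i) (.x c) = 2 := by
      rcases hT.dist_eq_dist_add_one_of_adj (.w c i) hst with h | h <;> omega
    refine ⟨h4, ?_⟩
    have h5 := dist_cross hT hst.symm (u := .w c i) (v := .x k) (by omega)
      (hleaf k _ hkc (hrt c (col j)) hkr)
    rw [dist_eq_one_iff_adj.2 (hstar k hkc)] at h5
    omega
  have hno : ∀ v : VB ι J, cp v = some c → (∀ y, T.Adj v y → cp y = some c) →
      3 ≤ T.dist v (.x c) := by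
    intro v hv hy
    have hvx : v ≠ .x c := by
      rintro rfl
      simp [cp] at hv
    refine three_le hc hvx (fun h => adjB_cp hv (hle _ _ h)) fun y h1 h2 => ?_
    exact adjB_cp (hy y h1) (hle _ _ h2)
  have hout : ∀ v : VB ι J, cp v = some c → (∀ k, ¬ T.Adj v (.x k)) →
      ∀ y, T.Adj v y → cp y = some c := by
    intro v hv hvx y hy
    rcases hcy : cp y with _ | c0
    · obtain ⟨k, rfl⟩ := cp_eq_none hcy
      exact (hvx k hy).elim
    · rw [adjB_same hv hcy (hle _ _ hy)]
  refine gadget hT (hstar k hkc) (w := .w c i) (a := .a c j) (b := .b c j) (g := .g c j) (δ := 2)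
    (hwr i hi).1 ?_ hka (by simp) ?_ ?_ ?_ ?_ ?_ ?_ ?_
  · rw [(hwr i hi).1, (hwr i hi).2]
    norm_num
  · simpa [bdB] using hb (.b c j) (.a c j) (by simp) (by simp [bdB])
  · simpa [bdB] using hb (.g c j) (.b c j) (by simp) (by simp [bdB])
  · simpa [bdB, hi] using hb (.g c j) (.w c i) (by simp) (by simp [bdB, hi])
  · exact hno _ rfl (hout _ rfl fun k h => adjB_bx (hle _ _ h))
  · exact hno _ rfl (hout _ rfl fun k h => adjB_gx (hle _ _ h))
  · exact two_le hc (by simp) fun h => adjB_bx (hle _ _ h)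
  · refine three_le hc (by simp) (fun h => adjB_gx (hle _ _ h)) ?_
    intro y h1 h2
    rcases adjB_g (hle _ _ h1) with rfl | ⟨i', hi', rfl⟩
    · exact adjB_bx (hle _ _ h2)
    · have h3 := (hwr i' hi').2
      rw [dist_eq_one_iff_adj.2 h2] at h3
      omega

end Pool.Agent.TSpan33
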