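import Mathlib

/-!
# Metric facts on trees
-/

set_option autoImplicit false

namespace Pool.Agent.TSpan33

open SimpleGraph

variable {V : Type*} {T : SimpleGraph V}

theorem dist_cross (hT : T.IsTree) {p q u v : V} (hpq : T.Adj p q)
    (hu : T.dist u p < T.dist u q) (hv : T.dist v q < T.dist v p) :
    T.dist u v = T.dist u p + 1 + T.dist q v := by
  classical
  obtain ⟨P, hP, hPl⟩ := hT.connected.exists_path_of_dist u p
  obtain ⟨Q, hQ, hQl⟩ := hT.connected.exists_path_of_dist q v
  have h1 : ∀ z ∈ P.support, T.dist z p < T.dist z q := by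
    intro z hz
    have e := P.take_spec hz
    have hlen : (P.takeUntil z hz).length + (P.dropUntil z hz).length = P.length := by
      rw [← Walk.length_append, e]
    have a1 := dist_le (P.takeUntil z hz)
    have a2 := dist_le (P.dropUntil z hz)
    have a3 : T.dist u q ≤ T.dist u z + T.dist z q := hT.connected.dist_triangle
    rcases hT.dist_eq_dist_add_one_of_adj z hpq with h | h <;> omega
  have h2 : ∀ z ∈ Q.support, T.dist z q < T.dist z p := by
    intro z hz
    have e := Q.take_spec hz
    have hlen : (Q.takeUntil z hz).length + (Q.dropUntil z hz).length = Q.length := by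
      rw [← Walk.length_append, e]
    have a1 := dist_le (Q.takeUntil z hz)
    have a2 := dist_le (Q.dropUntil z hz)
    have a3 : T.dist p v ≤ T.dist p z + T.dist z v := hT.connected.dist_triangle
    have c1 := T.dist_comm (u := v) (v := p)
    have c2 := T.dist_comm (u := v) (v := q)
    have c3 := T.dist_comm (u := z) (v := p)
    have c4 := T.dist_comm (u := z) (v := q)
    rcases hT.dist_eq_dist_add_one_of_adj z hpq with h | h <;> omega
  have hW : (P.append (Walk.cons hpq Q)).IsPath := by
    rw [Walk.isPath_def, Walk.support_append, Walk.support_cons, List.tail_cons,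
      List.nodup_append]
    refine ⟨(Walk.isPath_def _).1 hP, (Walk.isPath_def _).1 hQ, ?_⟩
    intro a ha b hb hab
    subst hab
    have := h1 a ha
    have := h2 a hb
    omega
  obtain ⟨R, hR, hRl⟩ := hT.connected.exists_path_of_dist u v
  have hu := (hT.isAcyclic.subsingleton_path u v).elim ⟨_, hW⟩ ⟨R, hR⟩
  have hl : (P.append (Walk.cons hpq Q)).length = R.length := by
    have := congrArg (fun x : T.Path u v => x.1.length) hu
    simpa using this
  rw [Walk.length_append, Walk.length_cons] at hl
  omega

theorem exists_mid (hc : T.Connected) {u v : V} (h : T.dist u v = 2) :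
    ∃ y, T.Adj u y ∧ T.Adj y v := by
  obtain ⟨P, hP⟩ := hc.exists_walk_length_eq_dist u v
  rw [h] at hP
  match P, hP with
  | Walk.cons h1 (Walk.cons h2 Walk.nil), _ => exact ⟨_, h1, h2⟩

theorem adj_of_le_one (hc : T.Connected) {u v : V} (hne : u ≠ v) (h : T.dist u v ≤ 1) :
    T.Adj u v := by
  have := hc.pos_dist_of_ne hne
  exact dist_eq_one_iff_adj.1 (by omega)

/-- A vertex at distance at least three. -/
theorem three_le (hc : T.Connected) {u v : V} (hne : u ≠ v) (hna : ¬ T.Adj u v)
    (h : ∀ y, T.Adj u y → ¬ T.Adj y v) : 3 ≤ T.dist u v := by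
  by_contra hlt
  have h1 := hc.pos_dist_of_ne hne
  have h2 : T.dist u v ≠ 1 := fun e => hna (dist_eq_one_iff_adj.1 e)
  obtain ⟨y, h3, h4⟩ := exists_mid hc (show T.dist u v = 2 by omega)
  exact h y h3 h4

theorem two_le (hc : T.Connected) {u v : V} (hne : u ≠ v) (hna : ¬ T.Adj u v) :
    2 ≤ T.dist u v := by
  have h1 := hc.pos_dist_of_ne hne
  have h2 : T.dist u v ≠ 1 := fun e => hna (dist_eq_one_iff_adj.1 e)
  omega

/-- The clause gadget. -/
theorem gadget (hT : T.IsTree) {p q w a b g : V} {δ : ℕ} (hpq : T.Adj p q)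
    (hw : T.dist w p = δ) (hws : T.dist w p < T.dist w q)
    (has : T.dist a q < T.dist a p) (haq : a ≠ q)
    (hba : T.dist b a ≤ 2 + δ) (hgb : T.dist g b ≤ 3 + δ) (hgw : T.dist g w ≤ 3 + δ)
    (hbp : δ + 1 ≤ T.dist b p) (hgp : δ + 1 ≤ T.dist g p)
    (hbq : 2 ≤ T.dist b q) (hgq : 3 ≤ T.dist g q) : False := by
  have hc := hT.connected
  have ha1 := hc.pos_dist_of_ne haq
  have hb : T.dist b q < T.dist b p := by
    rcases hT.dist_eq_dist_add_one_of_adj b hpq with h | h
    · omega
    · exfalso
      have := dist_cross hT hpq (u := b) (v := a) (by omega) has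
      rw [T.dist_comm (u := q)] at this
      omega
  rcases hT.dist_eq_dist_add_one_of_adj g hpq with h | h
  · have := dist_cross hT hpq.symm (u := g) (v := w) (by omega) hws
    rw [T.dist_comm (u := p)] at this
    omega
  · have := dist_cross hT hpq (u := g) (v := b) (by omega) hb
    rw [T.dist_comm (u := q)] at this
    omega

end Pool.Agent.TSpan33
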