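import Pool.Agent.TSpan33.Defs
import Pool.Agent.TSpan33.Tree

/-!
# Gluing triangles onto edges
-/

set_option autoImplicit false

namespace Pool.Agent.TSpan33

open SimpleGraph

/-! ### Bounded walks -/

/-- There is a walk of length at most `n`. -/
def Wn {V : Type*} (G : SimpleGraph V) (n : ℕ) (u v : V) : Prop :=
  ∃ W : G.Walk u v, W.length ≤ n

namespace Wn

variable {V V' : Type*} {G : SimpleGraph V} {G' : SimpleGraph V'}

theorem refl (n : ℕ) (u : V) : Wn G n u u := ⟨Walk.nil, by simp⟩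

theorem adj {u v : V} (h : G.Adj u v) : Wn G 1 u v := ⟨h.toWalk, by simp⟩

theorem mono {m n : ℕ} {u v : V} (h : Wn G m u v) (hmn : m ≤ n) : Wn G n u v := by
  obtain ⟨W, hW⟩ := h
  exact ⟨W, hW.trans hmn⟩

theorem trans {m n : ℕ} {u v w : V} (h : Wn G m u v) (h' : Wn G n v w) : Wn G (m + n) u w := by
  obtain ⟨W, hW⟩ := h
  obtain ⟨W', hW'⟩ := h'
  exact ⟨W.append W', by rw [Walk.length_append]; omega⟩

theorem symm {n : ℕ} {u v : V} (h : Wn G n u v) : Wn G n v u := by
  obtain ⟨W, hW⟩ := h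
  exact ⟨W.reverse, by rwa [Walk.length_reverse]⟩

theorem dist_le {n : ℕ} {u v : V} (h : Wn G n u v) : G.dist u v ≤ n := by
  obtain ⟨W, hW⟩ := h
  exact (SimpleGraph.dist_le W).trans hW

theorem reachable {n : ℕ} {u v : V} (h : Wn G n u v) : G.Reachable u v := by
  obtain ⟨W, hW⟩ := h
  exact ⟨W⟩

/-- Transport along a map that sends edges to edges or contracts them. -/
theorem map (f : V → V') (hf : ∀ u v, G.Adj u v → f u = f v ∨ G'.Adj (f u) (f v))
    {n : ℕ} {u v : V} (h : Wn G n u v) : Wn G' n (f u) (f v) := by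
  obtain ⟨W, hW⟩ := h
  induction W generalizing n with
  | nil => exact refl _ _
  | @cons u v w huv W ih =>
    rw [Walk.length_cons] at hW
    have h1 := ih (n := n - 1) (by omega)
    rcases hf _ _ huv with h2 | h2
    · rw [h2]
      exact h1.mono (by omega)
    · exact ((adj h2).trans h1).mono (by omega)

end Wn

/-! ### The tree of a parent function -/

/-- The graph with the edges from `v` to its parent, `v ≠ r`. -/
def parGraph {V : Type*} (r : V) (par : V → V) : SimpleGraph V where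
  Adj u v := u ≠ v ∧ ((u ≠ r ∧ par u = v) ∨ (v ≠ r ∧ par v = u))
  symm := ⟨fun _ _ h => ⟨h.1.symm, h.2.symm⟩⟩
  loopless := ⟨fun _ h => h.1 rfl⟩

theorem parGraph_isTree {V : Type*} [Finite V] (r : V) (par : V → V) (dep : V → ℕ)
    (h : ∀ v, v ≠ r → dep (par v) < dep v) : (parGraph r par).IsTree := by
  classical
  have hadj : ∀ v, v ≠ r → (parGraph r par).Adj v (par v) := by
    intro v hv
    refine ⟨fun e => ?_, Or.inl ⟨hv, rfl⟩⟩
    have := h v hv
    rw [← e] at this
    omega
  have hreach : ∀ n, ∀ v, dep v = n → (parGraph r par).Reachable v r := by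
    intro n
    induction n using Nat.strong_induction_on with
    | _ n ih =>
      intro v hv
      by_cases hvr : v = r
      · rw [hvr]
      · exact (hadj v hvr).reachable.trans (ih _ (hv ▸ h v hvr) _ rfl)
  have hc : (parGraph r par).Connected := by
    have : Nonempty V := ⟨r⟩
    exact ⟨fun u v => (hreach _ u rfl).trans (hreach _ v rfl).symm⟩
  rw [isTree_iff_connected_and_card]
  refine ⟨hc, le_antisymm ?_ hc.card_vert_le_card_edgeSet_add_one⟩
  let f : {v : V // v ≠ r} → (parGraph r par).edgeSet := fun v => ⟨s(v.1, par v.1), hadj v.1 v.2⟩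
  have hf : Function.Surjective f := by
    rintro ⟨e, he⟩
    induction e with
    | _ u v =>
      rcases he with ⟨h1, h2 | h2⟩
      · exact ⟨⟨u, h2.1⟩, by simp [f, h2.2]⟩
      · exact ⟨⟨v, h2.1⟩, by simp [f, h2.2, Sym2.eq_swap]⟩
  have h1 := Nat.card_le_card_of_surjective f hf
  have := Fintype.ofFinite V
  have h2 : Nat.card {v : V // v ≠ r} + 1 = Nat.card V := by
    rw [Nat.card_eq_fintype_card, Nat.card_eq_fintype_card, Fintype.card_subtype_compl,
      Fintype.card_subtype_eq]
    have : 0 < Fintype.card V := Fintype.card_pos_iff.2 ⟨r⟩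
    omega
  omega

/-! ### Bounded spanning trees of levelled graphs -/

/-- A spanning tree `T` with `d_T(u, v) + lev u v ≤ t` for all edges `uv`. -/
def LG.Has (A : LG) (t : ℕ) : Prop :=
  ∃ T : SimpleGraph A.V, T ≤ A.G ∧ T.IsTree ∧ ∀ u v, A.G.Adj u v → T.dist u v + A.lev u v ≤ t

/-- The same, for trees given by a parent function. -/
def LG.HasPar (A : LG) (t : ℕ) : Prop :=
  ∃ (r : A.V) (par : A.V → A.V) (dep : A.V → ℕ),
    (∀ v, v ≠ r → A.G.Adj v (par v) ∧ dep (par v) < dep v) ∧
    ∀ u v, A.G.Adj u v → ∃ n, n + A.lev u v ≤ t ∧ Wn (parGraph r par) n u v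

theorem LG.HasPar.has {A : LG} {t : ℕ} (h : A.HasPar t) : A.Has t := by
  obtain ⟨r, par, dep, h1, h2⟩ := h
  refine ⟨parGraph r par, ?_, parGraph_isTree r par dep fun v hv => (h1 v hv).2, ?_⟩
  · rintro u v ⟨_, h | h⟩
    · rw [← h.2]
      exact (h1 u h.1).1
    · rw [← h.2]
      exact (h1 v h.1).1.symm
  · intro u v huv
    obtain ⟨n, hn, hW⟩ := h2 u v huv
    have := hW.dist_le
    omega

theorem up_aux {A : LG} {t : ℕ} {r : A.V} {par : A.V → A.V} {dep : A.V → ℕ}
    (h1 : ∀ v, v ≠ r → A.G.Adj v (par v) ∧ dep (par v) < dep v)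
    (h2 : ∀ u v, A.G.Adj u v → ∃ n, n + A.lev u v ≤ t ∧ Wn (parGraph r par) n u v) :
    ∃ (r' : A.V ⊕ A.Y) (par' : A.V ⊕ A.Y → A.V ⊕ A.Y) (dep' : A.V ⊕ A.Y → ℕ),
    (∀ v, v ≠ r' → A.stepAdj v (par' v) ∧ dep' (par' v) < dep' v) ∧
    ∀ u v, A.stepAdj u v → ∃ n, n + A.stepLev u v ≤ t ∧ Wn (parGraph r' par') n u v := by
  let par' : A.V ⊕ A.Y → A.V ⊕ A.Y
    | .inl v => .inl (par v)
    | .inr p => .inl p.1.1
  let dep' : A.V ⊕ A.Y → ℕ
    | .inl v => dep v
    | .inr p => dep p.1.1 + 1
  have hmap : ∀ {n : ℕ} {u v : A.V}, Wn (parGraph r par) n u v →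
      Wn (parGraph (Sum.inl r) par') n (Sum.inl u) (Sum.inl v) := by
    intro n u v
    refine Wn.map _ fun u v huv => Or.inr ?_
    obtain ⟨h3, h4⟩ := huv
    refine ⟨fun e => h3 (Sum.inl_injective e), ?_⟩
    rcases h4 with h4 | h4
    · exact Or.inl ⟨fun e => h4.1 (Sum.inl_injective e), by simp [par', h4.2]⟩
    · exact Or.inr ⟨fun e => h4.1 (Sum.inl_injective e), by simp [par', h4.2]⟩
  have hy : ∀ p : A.Y, Wn (parGraph (Sum.inl r) par') 1 (Sum.inr p) (Sum.inl p.1.1) := by
    intro p
    exact Wn.adj ⟨by simp, Or.inl ⟨by simp, rfl⟩⟩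
  refine ⟨Sum.inl r, par', dep', ?_, ?_⟩
  · rintro (v | p) hv
    · have := h1 v (fun e => hv (by rw [e]))
      exact ⟨this.1, this.2⟩
    · exact ⟨Or.inl rfl, by simp [dep', par']⟩
  · rintro (u | p) (v | q) huv
    · obtain ⟨n, hn, hW⟩ := h2 u v huv
      exact ⟨n, by simp only [LG.stepLev]; omega, hmap hW⟩
    · obtain ⟨n, hn, hW⟩ := h2 q.1.1 q.1.2 q.2.1
      have hl := q.2.2
      have hne := q.2.1.ne
      rcases (huv : u = q.1.1 ∨ u = q.1.2) with h | h
      · refine ⟨1, ?_, h ▸ (hy q).symm⟩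
        simp only [LG.stepLev, h, if_true]
        have : 0 < n := by
          rcases Nat.eq_zero_or_pos n with h0 | h0
          · exfalso
            obtain ⟨W, hW⟩ := hW
            rw [h0, Nat.le_zero] at hW
            exact hne (Walk.eq_of_length_eq_zero hW)
          · exact h0
        omega
      · refine ⟨n + 1, ?_, h ▸ (hmap hW.symm).trans (hy q).symm⟩
        have : ¬ u = q.1.1 := fun e => hne (by rw [← e, ← h])
        simp only [LG.stepLev, this, if_false]
        omega
    · obtain ⟨n, hn, hW⟩ := h2 p.1.1 p.1.2 p.2.1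
      have hl := p.2.2
      have hne := p.2.1.ne
      rcases (huv : v = p.1.1 ∨ v = p.1.2) with h | h
      · refine ⟨1, ?_, h ▸ hy p⟩
        have : ¬ v = p.1.2 := fun e => hne (by rw [← e, ← h])
        simp only [LG.stepLev, this, if_false]
        omega
      · refine ⟨1 + n, ?_, h ▸ (hy p).trans (hmap hW)⟩
        simp only [LG.stepLev, h, if_true]
        omega
    · exact huv.elim

theorem LG.HasPar.up {A : LG} {t : ℕ} (h : A.HasPar t) : A.step.HasPar t := by
  obtain ⟨r, par, dep, h1, h2⟩ := h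
  exact up_aux h1 h2

theorem down_aux {A : LG} {t : ℕ} (hlev : ∀ u v, A.lev u v < t)
    {T : SimpleGraph (A.V ⊕ A.Y)} (hT : ∀ {p q}, T.Adj p q → A.stepAdj p q) (hTt : T.IsTree)
    (hb : ∀ p q, A.stepAdj p q → T.dist p q + A.stepLev p q ≤ t) : A.Has t := by
  classical
  have hTc := hTt.connected
  -- every new vertex has a neighbour in the tree
  have hex : ∀ y : A.Y, ∃ z : A.V, T.Adj (Sum.inr y) (Sum.inl z) := by
    intro y
    obtain ⟨W⟩ := hTc (Sum.inr y) (Sum.inl y.1.1)
    cases W with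
    | @cons _ v _ h W =>
      rcases v with v | q
      · exact ⟨v, h⟩
      · exact (hT h).elim
  choose f hf using hex
  have hfy : ∀ y : A.Y, f y = y.1.1 ∨ f y = y.1.2 := fun y => hT (hf y)
  let F : A.V ⊕ A.Y → A.V := Sum.elim id f
  let T' : SimpleGraph A.V :=
    { Adj := fun x x' => x ≠ x' ∧ ∃ p q, T.Adj p q ∧ F p = x ∧ F q = x'
      symm := ⟨by
        rintro x x' ⟨h1, p, q, h2, h3, h4⟩
        exact ⟨h1.symm, q, p, h2.symm, h4, h3⟩⟩
      loopless := ⟨fun _ h => h.1 rfl⟩ }
  have hmap : ∀ {n : ℕ} {p q : A.V ⊕ A.Y}, Wn T n p q → Wn T' n (F p) (F q) := by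
    intro n p q
    refine Wn.map _ fun u v huv => ?_
    by_cases h : F u = F v
    · exact Or.inl h
    · exact Or.inr ⟨h, u, v, huv, rfl, rfl⟩
  have hTW : ∀ p q, Wn T (T.dist p q) p q := by
    intro p q
    obtain ⟨W, hW⟩ := hTc.exists_walk_length_eq_dist p q
    exact ⟨W, hW.le⟩
  have hc' : T'.Connected := by
    have : Nonempty A.V := by
      obtain ⟨p⟩ := hTc.nonempty
      exact ⟨F p⟩
    exact ⟨fun u v => (hmap (hTW (Sum.inl u) (Sum.inl v))).reachable⟩
  have hle : T' ≤ A.G := by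
    rintro x x' ⟨hne, p, q, hpq, hp, hq⟩
    rcases p with u | y <;> rcases q with v | y'
    · have : A.G.Adj u v := hT hpq
      rw [← hp, ← hq]
      exact this
    · have h1 : u = y'.1.1 ∨ u = y'.1.2 := hT hpq
      have h2 := hfy y'
      have h3 := y'.2.1
      have hp' : u = x := hp
      have hq' : f y' = x' := hq
      rw [hp'] at h1
      rw [hq'] at h2
      rcases h1 with h1 | h1 <;> rcases h2 with h2 | h2
      · exact (hne (h1.trans h2.symm)).elim
      · rw [h1, h2]; exact h3
      · rw [h1, h2]; exact h3.symm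
      · exact (hne (h1.trans h2.symm)).elim
    · have h1 : v = y.1.1 ∨ v = y.1.2 := hT hpq
      have h2 := hfy y
      have h3 := y.2.1
      have hq' : v = x' := hq
      have hp' : f y = x := hp
      rw [hq'] at h1
      rw [hp'] at h2
      rcases h1 with h1 | h1 <;> rcases h2 with h2 | h2
      · exact (hne (h2.trans h1.symm)).elim
      · rw [h1, h2]; exact h3.symm
      · rw [h1, h2]; exact h3
      · exact (hne (h2.trans h1.symm)).elim
    · exact (hT hpq).elim
  have htree : T'.IsTree := by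
    rw [isTree_iff_connected_and_card]
    refine ⟨hc', le_antisymm ?_ hc'.card_vert_le_card_edgeSet_add_one⟩
    let R : Set (Sym2 (A.V ⊕ A.Y)) := Set.range fun y : A.Y => s(Sum.inr y, Sum.inl (f y))
    have hR : R ⊆ T.edgeSet := by
      rintro _ ⟨y, rfl⟩
      exact hf y
    have hRc : R.ncard = Nat.card A.Y := by
      have hinj : Function.Injective fun y : A.Y =>
          (s(Sum.inr y, Sum.inl (f y)) : Sym2 (A.V ⊕ A.Y)) := by
        intro y y' hyy
        have h1 : y = y' ∧ f y = f y' := by simpa using hyy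
        exact h1.1
      have := Set.ncard_image_of_injective (Set.univ : Set A.Y) hinj
      rwa [Set.image_univ, Set.ncard_univ] at this
    have hsub : T'.edgeSet ⊆ Sym2.map F '' (T.edgeSet \ R) := by
      intro e he
      induction e with
      | _ x x' =>
        obtain ⟨hne, p, q, hpq, hp, hq⟩ := he
        refine ⟨s(p, q), ⟨hpq, ?_⟩, by rw [Sym2.map_mk, hp, hq]⟩
        rintro ⟨y, hy⟩
        rw [Sym2.eq_iff] at hy
        rcases hy with ⟨h1, h2⟩ | ⟨h1, h2⟩
        · apply hne
          rw [← hp, ← hq, ← h1, ← h2]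
          rfl
        · apply hne
          rw [← hp, ← hq, ← h1, ← h2]
          rfl
    have h1 : T'.edgeSet.ncard ≤ (T.edgeSet \ R).ncard :=
      (Set.ncard_le_ncard hsub (Set.toFinite _)).trans (Set.ncard_image_le (Set.toFinite _))
    have h2 : (T.edgeSet \ R).ncard + R.ncard = T.edgeSet.ncard :=
      Set.ncard_sdiff_add_ncard_of_subset hR (Set.toFinite _)
    have h3 := (isTree_iff_connected_and_card.1 hTt).2
    have h4 : Nat.card (A.V ⊕ A.Y) = Nat.card A.V + Nat.card A.Y := Nat.card_sum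
    have h6 : Nat.card T.edgeSet = T.edgeSet.ncard := rfl
    have h7 : Nat.card T'.edgeSet = T'.edgeSet.ncard := rfl
    omega
  refine ⟨T', hle, htree, fun u v huv => ?_⟩
  rcases Nat.eq_zero_or_pos (A.lev u v) with h0 | h0
  · have h1 := hb (Sum.inl u) (Sum.inl v) huv
    have h2 : T'.dist u v ≤ T.dist (Sum.inl u) (Sum.inl v) :=
      (hmap (hTW (Sum.inl u) (Sum.inl v))).dist_le
    omega
  · let y : A.Y := ⟨(u, v), huv, h0⟩
    have hlv := hlev u v
    have h1 := hb (Sum.inl u) (Sum.inr y) (Or.inl rfl)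
    have h2 := hb (Sum.inr y) (Sum.inl v) (Or.inr rfl)
    have e1 : A.stepLev (Sum.inl u) (Sum.inr y) = A.lev u v - 1 := by
      simp [LG.stepLev, y]
    have e2 : A.stepLev (Sum.inr y) (Sum.inl v) = A.lev u v - 1 := by
      simp [LG.stepLev, y]
    rw [e1] at h1
    rw [e2] at h2
    -- the only neighbour case
    have key : ∀ z z' : A.V, (z = u ∧ z' = v ∨ z = v ∧ z' = u) →
        T.Adj (Sum.inr y) (Sum.inl z) → ¬ T.Adj (Sum.inr y) (Sum.inl z') →
        T'.dist z z' + 1 ≤ T.dist (Sum.inr y) (Sum.inl z') := by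
      intro z z' hz hyz hyz'
      obtain ⟨W, hW⟩ := hTc.exists_walk_length_eq_dist (Sum.inr y) (Sum.inl z')
      cases W with
      | @cons _ w _ h W =>
        rw [Walk.length_cons] at hW
        have hwz : w = Sum.inl z := by
          rcases w with w | q
          · have h3 : w = u ∨ w = v := hT h
            have h4 : w ≠ z' := by
              rintro rfl
              exact hyz' h
            rcases hz with ⟨rfl, rfl⟩ | ⟨rfl, rfl⟩
            · rw [h3.resolve_right h4]
            · rw [h3.resolve_left h4]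
          · exact (hT h).elim
        subst hwz
        have h5 : Wn T W.length (Sum.inl z) (Sum.inl z') := ⟨W, le_rfl⟩
        have h6 : T'.dist z z' ≤ W.length := (hmap h5).dist_le
        omega
    by_cases hu : T.Adj (Sum.inr y) (Sum.inl u)
    · by_cases hv : T.Adj (Sum.inr y) (Sum.inl v)
      · have h3 : T'.Adj u v := by
          refine ⟨huv.ne, ?_⟩
          rcases hfy y with h | h
          · exact ⟨Sum.inr y, Sum.inl v, hv, h, rfl⟩
          · exact ⟨Sum.inl u, Sum.inr y, hu.symm, rfl, h⟩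
        have h4 := (Wn.adj h3).dist_le
        omega
      · have h3 := key u v (Or.inl ⟨rfl, rfl⟩) hu hv
        omega
    · have hv : T.Adj (Sum.inr y) (Sum.inl v) := by
        have h3 := hf y
        rcases hfy y with h | h
        · rw [h] at h3
          exact (hu h3).elim
        · rwa [h] at h3
      have h3 := key v u (Or.inr ⟨rfl, rfl⟩) hv hu
      rw [T.dist_comm (u := Sum.inl u)] at h1
      rw [T'.dist_comm (u := v)] at h3
      omega

theorem LG.Has.down {A : LG} {t : ℕ} (hlev : ∀ u v, A.lev u v < t) (h : A.step.Has t) :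
    A.Has t := by
  obtain ⟨T, hT, hTt, hb⟩ := h
  exact down_aux (T := T) hlev (fun h => hT h) hTt hb

theorem LG.step_lev_lt {A : LG} {t : ℕ} (ht : 0 < t) (h : ∀ u v, A.lev u v < t) :
    ∀ u v, A.step.lev u v < t := by
  rintro (u | p) (v | q)
  · exact ht
  · show (if u = q.1.1 then A.lev q.1.1 q.1.2 - 1 else 0) < t
    split
    · have := h q.1.1 q.1.2
      omega
    · exact ht
  · show (if v = p.1.2 then A.lev p.1.1 p.1.2 - 1 else 0) < t
    split
    · have := h p.1.1 p.1.2
      omega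
    · exact ht
  · exact ht

theorem LG.HasPar.steps {t : ℕ} (n : ℕ) : ∀ {A : LG}, A.HasPar t → (LG.steps n A).HasPar t := by
  induction n with
  | zero => exact fun h => h
  | succ n ih => exact fun h => ih h.up

theorem LG.Has.of_steps {t : ℕ} (ht : 0 < t) (n : ℕ) : ∀ {A : LG}, (∀ u v, A.lev u v < t) →
    (LG.steps n A).Has t → A.Has t := by
  induction n with
  | zero => exact fun _ h => h
  | succ n ih => exact fun hl h => LG.Has.down hl (ih (LG.step_lev_lt ht hl) h)

end Pool.Agent.TSpan33
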